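import Pool.Agent.Lib.MP_7aba48_co_G5.OddB
import Pool.Agent.Lib.MP_7aba48_co_G5.Token

/-!
# The blocks which obstruct a 3-colouring of the second side
-/

namespace Pool.Agent.Lib.MP_7aba48_co_G5

open Finset

universe u

variable {V : Type u} [DecidableEq V] {G : SimpleGraph V}

/-- admissible sets -/
private def ba_adm (G : SimpleGraph V) (D N I : Finset V) : Prop :=
  I ⊆ D ∧ (∀ v ∈ I, v ∉ N) ∧ ∀ v ∈ I, ∀ w ∈ I, ¬ G.Adj v w

/-- a vertex of degree two all of whose neighbours are on the odd cycle -/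
private theorem ba_closed {D N W Q : Finset V} (hWD : W ⊆ D)
    (h2 : ∀ v ∈ D, v ∈ N → dg G v D = 2) (hW : ∀ v ∈ W, dg G v W ≤ 2) (hQ : Q ∈ cyc G W) {v : V}
    (hv : v ∈ Q) (hvN : v ∈ N) : ∀ w ∈ D, G.Adj v w → w ∈ Q := by
  intro w hw hvw
  have hQW : Q ⊆ W := (mem_cyc.1 hQ).1
  have h4 := (dg_eq_two hW hQ hv).1
  have h5 := h2 v (hWD (hQW hv)) hvN
  have hsub : nb G v Q ⊆ nb G v D := by
    intro z hz
    rw [mem_nb] at hz ⊢
    exact ⟨hWD (hQW hz.1), hz.2⟩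
  unfold dg at h4 h5
  have h6 := Finset.eq_of_subset_of_card_le hsub (by omega)
  have h7 : w ∈ nb G v D := mem_nb.2 ⟨hw, hvw⟩
  rw [← h6, mem_nb] at h7
  exact h7.1

/-- each vertex outside a maximal admissible set has a neighbour in it, or lies in `N` -/
private theorem ba_max {D N I : Finset V} (hI : ba_adm G D N I)
    (hmax : ∀ J, ba_adm G D N J → J.card ≤ I.card) {v : V} (hv : v ∈ D) (hvI : v ∉ I)
    (hvN : v ∉ N) : ∃ y ∈ I, G.Adj v y := by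
  by_contra h
  push Not at h
  have h1 : ba_adm G D N (insert v I) := by
    refine ⟨insert_subset hv hI.1, ?_, ?_⟩
    · intro w hw
      rcases mem_insert.1 hw with rfl | hw
      · exact hvN
      · exact hI.2.1 w hw
    · intro w hw z hz
      rcases mem_insert.1 hw with hw1 | hw1 <;> rcases mem_insert.1 hz with hz1 | hz1
      · rw [hw1, hz1]
        exact G.loopless.irrefl _
      · rw [hw1]
        exact h z hz1
      · rw [hz1]
        exact fun h9 => h w hw1 h9.symm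
      · exact hI.2.2 w hw1 z hz1
  have h2 := hmax _ h1
  rw [card_insert_of_notMem hvI] at h2
  omega

private theorem ba_deg {D N I : Finset V} (hI : ba_adm G D N I)
    (hmax : ∀ J, ba_adm G D N J → J.card ≤ I.card)
    (h2 : ∀ v ∈ D, v ∈ N → dg G v D = 2) (h3 : ∀ v ∈ D, v ∉ N → dg G v D = 3) :
    ∀ v ∈ D \ I, dg G v (D \ I) ≤ 2 := by
  intro v hv
  rw [mem_sdiff] at hv
  by_cases hvN : v ∈ N
  · have h5 := h2 v hv.1 hvN
    have hsub : nb G v (D \ I) ⊆ nb G v D := by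
      intro z hz
      rw [mem_nb, mem_sdiff] at hz
      exact mem_nb.2 ⟨hz.1.1, hz.2⟩
    have h6 := card_le_card hsub
    unfold dg at h5 ⊢
    omega
  · obtain ⟨y, hy, hvy⟩ := ba_max hI hmax hv.1 hv.2 hvN
    have h5 := h3 v hv.1 hvN
    have hsub : nb G v (D \ I) ⊆ (nb G v D).erase y := by
      intro z hz
      rw [mem_nb, mem_sdiff] at hz
      refine mem_erase.2 ⟨?_, mem_nb.2 ⟨hz.1.1, hz.2⟩⟩
      rintro rfl
      exact hz.1.2 hy
    have h6 := card_le_card hsub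
    have h7 := card_erase_add_one (mem_nb.2 ⟨hI.1 hy, hvy⟩ : y ∈ nb G v D)
    unfold dg at h5 ⊢
    omega

/-- one slide -/
private theorem ba_slide {D N I : Finset V} {μ : ℕ} (hI : ba_adm G D N I)
    (hmax : ∀ J, ba_adm G D N J → J.card ≤ I.card)
    (h2 : ∀ v ∈ D, v ∈ N → dg G v D = 2) (h3 : ∀ v ∈ D, v ∉ N → dg G v D = 3)
    (hμ : (cyc G (D \ I)).card = μ)
    (hmin : ∀ J, ba_adm G D N J → J.card = I.card → μ ≤ (cyc G (D \ J)).card)
    {Q : Finset V} (hQ : Q ∈ cyc G (D \ I)) {x : V} (hx : x ∈ Q) (hxN : x ∉ N) :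
    ∃ y J, y ∈ I ∧ G.Adj x y ∧ ba_adm G D N J ∧ J.card = I.card ∧ (cyc G (D \ J)).card = μ ∧
      D \ J = insert y ((D \ I).erase x) ∧ ∃ C ∈ cyc G (D \ J), y ∈ C := by
  have hW := ba_deg hI hmax h2 h3
  have hxW : x ∈ D \ I := (mem_cyc.1 hQ).1 hx
  have hxD : x ∈ D := (mem_sdiff.1 hxW).1
  have hxI : x ∉ I := (mem_sdiff.1 hxW).2
  have hdW := (dg_eq_two hW hQ hx).2.1
  have hdD := h3 x hxD hxN
  obtain ⟨y, hyI, hxy⟩ := ba_max hI hmax hxD hxI hxN
  have huniq : ∀ z ∈ I, G.Adj x z → z = y := by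
    intro z hz hxz
    by_contra hzy
    have hsub : nb G x (D \ I) ⊆ ((nb G x D).erase y).erase z := by
      intro t ht
      rw [mem_nb, mem_sdiff] at ht
      refine mem_erase.2 ⟨?_, mem_erase.2 ⟨?_, mem_nb.2 ⟨ht.1.1, ht.2⟩⟩⟩
      · rintro rfl
        exact ht.1.2 hz
      · rintro rfl
        exact ht.1.2 hyI
    have h6 := card_le_card hsub
    have h7 := card_erase_add_one (mem_nb.2 ⟨hI.1 hyI, hxy⟩ : y ∈ nb G x D)
    have h8 := card_erase_add_one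
      (mem_erase.2 ⟨hzy, mem_nb.2 ⟨hI.1 hz, hxz⟩⟩ : z ∈ (nb G x D).erase y)
    unfold dg at hdW hdD
    omega
  have hyD : y ∈ D := hI.1 hyI
  have hyx : y ≠ x := hxy.ne'
  have hxe : x ∉ I.erase y := fun h => hxI (mem_of_mem_erase h)
  have hJ : ba_adm G D N (insert x (I.erase y)) := by
    refine ⟨insert_subset hxD ((erase_subset _ _).trans hI.1), ?_, ?_⟩
    · intro w hw
      rcases mem_insert.1 hw with rfl | hw
      · exact hxN
      · exact hI.2.1 w (mem_of_mem_erase hw)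
    · intro w hw z hz
      rcases mem_insert.1 hw with hw1 | hw1 <;> rcases mem_insert.1 hz with hz1 | hz1
      · rw [hw1, hz1]
        exact G.loopless.irrefl _
      · rw [hw1]
        exact fun h => (mem_erase.1 hz1).1 (huniq z (mem_of_mem_erase hz1) h)
      · rw [hz1]
        exact fun h => (mem_erase.1 hw1).1 (huniq w (mem_of_mem_erase hw1) h.symm)
      · exact hI.2.2 w (mem_of_mem_erase hw1) z (mem_of_mem_erase hz1)
  have hJc : (insert x (I.erase y)).card = I.card := by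
    rw [card_insert_of_notMem hxe, card_erase_add_one hyI]
  have hDJ : D \ insert x (I.erase y) = insert y ((D \ I).erase x) := by
    ext z
    simp only [mem_sdiff, mem_insert, mem_erase, not_or, not_and]
    constructor
    · rintro ⟨hzD, hzx, hz⟩
      by_cases hzy : z = y
      · exact Or.inl hzy
      · exact Or.inr ⟨hzx, hzD, hz hzy⟩
    · rintro (rfl | ⟨hzx, hzD, hzI⟩)
      · exact ⟨hyD, hyx, fun h => absurd rfl h⟩
      · exact ⟨hzD, hzx, fun _ => hzI⟩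
  have hJmax : ∀ K, ba_adm G D N K → K.card ≤ (insert x (I.erase y)).card := by
    rw [hJc]
    exact hmax
  have hW' := ba_deg hJ hJmax h2 h3
  have hge := hmin _ hJ hJc
  have he := cyc_erase_card hW hQ hx
  have hyW : y ∉ (D \ I).erase x := fun h => (mem_sdiff.1 (mem_of_mem_erase h)).2 hyI
  rw [hDJ] at hW' hge
  have hle := cyc_insert_card hyW hW'
  refine ⟨y, insert x (I.erase y), hyI, hxy, hJ, hJc, ?_, hDJ, ?_⟩
  · rw [hDJ]
    omega
  · rw [hDJ]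
    by_contra h
    push Not at h
    have h9 := cyc_insert_card_le hyW h
    omega

/-- `D` is connected, vertices in `N` have degree two, the others degree three, and deleting an
independent set of the others never leaves a 2-colourable graph. Then `D` is an odd cycle
contained in `N`, or `N` contains two disjoint odd cycles of `D` minus a vertex. -/
theorem block_core [Fintype V] (hT : NoTri G) (h4 : NoC4 G) {D N : Finset V}
    (hconn : ∀ X ⊆ D, X.Nonempty → (∀ v ∈ X, ∀ w ∈ D, G.Adj v w → w ∈ X) → X = D)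
    (h2 : ∀ v ∈ D, v ∈ N → dg G v D = 2) (h3 : ∀ v ∈ D, v ∉ N → dg G v D = 3)
    (hbad : ∀ I ⊆ D, (∀ v ∈ I, v ∉ N) → (∀ v ∈ I, ∀ w ∈ I, ¬ G.Adj v w) → ¬ Col2 G (D \ I)) :
    (OddC G D ∧ ∀ v ∈ D, v ∈ N) ∨
    ∃ Q Q' : Finset V, ∃ x x' : V, OddC G Q ∧ (∀ v ∈ Q, dg G v Q = 2) ∧ x ∈ Q ∧
      OddC G Q' ∧ (∀ v ∈ Q', dg G v Q' = 2) ∧ x' ∈ Q' ∧ Q ⊆ D ∧ Q' ⊆ D ∧
      Q.erase x ⊆ N ∧ Q'.erase x' ⊆ N ∧ Disjoint (Q.erase x) (Q'.erase x') := by
  classical
  -- the maximal admissible sets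
  obtain ⟨I₁, hI₁, hI₁max⟩ := exists_max_image (D.powerset.filter fun I => ba_adm G D N I)
    (fun I => I.card) ⟨∅, mem_filter.2 ⟨mem_powerset.2 (empty_subset _), empty_subset _,
      by simp, by simp⟩⟩
  have hadm₁ : ba_adm G D N I₁ := (mem_filter.1 hI₁).2
  have hmax₁ : ∀ J, ba_adm G D N J → J.card ≤ I₁.card := fun J hJ =>
    hI₁max J (mem_filter.2 ⟨mem_powerset.2 hJ.1, hJ⟩)
  obtain ⟨I₀, hI₀, hI₀min⟩ := exists_min_image
    (D.powerset.filter fun I => ba_adm G D N I ∧ I.card = I₁.card)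
    (fun I => (cyc G (D \ I)).card) ⟨I₁, mem_filter.2 ⟨mem_powerset.2 hadm₁.1, hadm₁, rfl⟩⟩
  have hadm₀ : ba_adm G D N I₀ := (mem_filter.1 hI₀).2.1
  have hcard₀ : I₀.card = I₁.card := (mem_filter.1 hI₀).2.2
  obtain ⟨μ, hμ⟩ : ∃ μ, (cyc G (D \ I₀)).card = μ := ⟨_, rfl⟩
  have hmin : ∀ J, ba_adm G D N J → J.card = I₁.card → μ ≤ (cyc G (D \ J)).card := by
    intro J hJ hJc
    rw [← hμ]
    exact hI₀min J (mem_filter.2 ⟨mem_powerset.2 hJ.1, hJ, hJc⟩)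
  obtain ⟨Fam, hFam⟩ : ∃ Fam : Finset V → Prop, Fam = fun W => ∃ I, ba_adm G D N I ∧
      I.card = I₁.card ∧ W = D \ I ∧ (cyc G W).card = μ := ⟨_, rfl⟩
  have hF : ∀ W, Fam W → ∀ v ∈ W, dg G v W ≤ 2 := by
    intro W hW
    rw [hFam] at hW
    obtain ⟨I, hI, hIc, rfl, -⟩ := hW
    exact ba_deg hI (by rw [hIc]; exact hmax₁) h2 h3
  have hFD : ∀ W, Fam W → W ⊆ D := by
    intro W hW
    rw [hFam] at hW
    obtain ⟨I, hI, hIc, rfl, -⟩ := hW
    exact sdiff_subset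
  have hFne : ∀ W, Fam W → ∃ C, C ∈ cyc G W := by
    intro W hW
    rw [hFam] at hW
    obtain ⟨I, hI, hIc, rfl, -⟩ := hW
    exact exists_cyc (hbad I hI.1 hI.2.1 hI.2.2)
  have hslide : ∀ W, Fam W → ∀ Q ∈ cyc G W, ∀ x ∈ Q, x ∉ N → ∃ y, y ∉ W ∧ y ∈ D ∧ G.Adj x y ∧
      Fam (insert y (W.erase x)) ∧ ∃ C ∈ cyc G (insert y (W.erase x)), y ∈ C := by
    intro W hW Q hQ x hx hxN
    rw [hFam] at hW
    obtain ⟨I, hI, hIc, rfl, hIμ⟩ := hW
    obtain ⟨y, J, hyI, hxy, hJ, hJc, hJμ, hDJ, hC⟩ := ba_slide hI (by rw [hIc]; exact hmax₁) h2 h3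
      hIμ (by rw [hIc]; exact hmin) hQ hx hxN
    refine ⟨y, fun h => (mem_sdiff.1 h).2 hyI, hI.1 hyI, hxy, ?_, ?_⟩
    · rw [hFam]
      exact ⟨J, hJ, hJc.trans hIc, hDJ.symm, by rw [← hDJ]; exact hJμ⟩
    · rw [← hDJ]
      exact hC
  have hfin : ∀ W K, Fam W → (∀ T U W'', Disjoint T K → Step G W T U W'' → ¬ Fam W'') →
      ∀ Q ∈ cyc G W, ∀ x ∈ Q, x ∉ N → x ∈ K := by
    intro W K hW hK Q hQ x hx hxN
    by_contra hxK
    obtain ⟨y, hyW, hyD, hxy, hFW', C, hC, hyC⟩ := hslide W hW Q hQ x hx hxN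
    refine hK {x} {y} (insert y (W.erase x)) (by simpa using hxK) ?_ hFW'
    refine ⟨?_, ?_, ⟨y, mem_singleton_self y⟩, by simpa using hyW, ?_, ?_, ?_⟩
    · intro t ht
      rw [mem_singleton.1 ht]
      exact ⟨Q, hQ, hx⟩
    · intro C _ a _ b _ ha hb
      rw [mem_singleton.1 ha, mem_singleton.1 hb]
    · intro t ht
      rw [mem_singleton.1 ht]
      exact ⟨y, mem_singleton_self y, hxy⟩
    · ext z
      simp only [mem_insert, mem_erase, mem_union, mem_sdiff, mem_singleton]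
      tauto
    · intro u hu
      rw [mem_singleton.1 hu]
      exact ⟨C, hC, hyC, fun v _ hv => mem_singleton.1 hv⟩
  have hfull : ∀ W, Fam W → ∀ Q ∈ cyc G W, (∀ v ∈ Q, v ∈ N) → Q = D := by
    intro W hW Q hQ hQN
    refine hconn Q ((mem_cyc.1 hQ).1.trans (hFD W hW)) (mem_cyc.1 hQ).2.nonempty ?_
    intro v hv w hw hvw
    exact ba_closed (hFD W hW) h2 (hF W hW) hQ hv (hQN v hv) w hw hvw
  have hF₀ : Fam (D \ I₀) := by
    rw [hFam]
    exact ⟨I₀, hadm₀, hcard₀, rfl, hμ⟩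
  have hM₀ : Marked G (D \ I₀) ∅ := ⟨empty_subset _, by simp, by simp⟩
  obtain ⟨W, K, hW, hM, -, hK⟩ := exists_final h4 Fam hF hF₀ hM₀
  obtain ⟨Q, hQ⟩ := hFne W hW
  by_cases hQN : ∀ v ∈ Q, v ∈ N
  · left
    have h5 := hfull W hW Q hQ hQN
    rw [h5] at hQ hQN
    exact ⟨(mem_cyc.1 hQ).2, hQN⟩
  right
  push Not at hQN
  obtain ⟨x, hx, hxN⟩ := hQN
  have hQe : ∀ v ∈ Q.erase x, v ∈ N := by
    intro v hv
    by_contra hvN
    exact (mem_erase.1 hv).1 (hM.2.1 Q hQ v (mem_of_mem_erase hv) x hx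
      (hfin W K hW hK Q hQ v (mem_of_mem_erase hv) hvN) (hfin W K hW hK Q hQ x hx hxN))
  obtain ⟨y, hyW, hyD, hxy, hF₁, C, hC, hyC⟩ := hslide W hW Q hQ x hx hxN
  have hQW : Q ⊆ W := (mem_cyc.1 hQ).1
  have hQD : Q ⊆ D := hQW.trans (hFD W hW)
  have hxW₁ : x ∉ insert y (W.erase x) := by
    intro h
    rcases mem_insert.1 h with h | h
    · exact hxy.ne h
    · exact (mem_erase.1 h).1 rfl
  have hM₁ : Marked G (insert y (W.erase x)) {y} := by
    refine ⟨by simp, ?_, ?_⟩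
    · intro C _ a _ b _ ha hb
      rw [mem_singleton.1 ha, mem_singleton.1 hb]
    · intro w hw
      rw [mem_singleton.1 hw]
      exact Or.inl ⟨C, hC, hyC⟩
  have hR₁ : Ret G (insert y (W.erase x)) {y} (Q.erase x) x := by
    refine ⟨?_, ?_, hxW₁, ?_, ?_, y, mem_singleton_self y, ?_, hxy⟩
    · intro v hv
      exact mem_insert_of_mem (mem_erase.2 ⟨(mem_erase.1 hv).1, hQW (mem_of_mem_erase hv)⟩)
    · intro v hv z hz hvz
      have hzD : z ∈ D := hFD _ hF₁ hz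
      have h5 := ba_closed (hFD W hW) h2 (hF W hW) hQ (mem_of_mem_erase hv) (hQe v hv) z hzD hvz
      refine mem_erase.2 ⟨?_, h5⟩
      rintro rfl
      exact hxW₁ hz
    · rw [insert_erase hx]
      exact (mem_cyc.1 hQ).2
    · rw [insert_erase hx]
      exact fun v hv => (dg_eq_two (hF W hW) hQ hv).1
    · exact fun h => hyW (hQW (mem_of_mem_erase h))
  obtain ⟨W₂, K₂, hW₂, hM₂, hR₂, hK₂⟩ := exists_final h4 Fam hF hF₁ hM₁
  obtain ⟨-, hPc, -, -, -, -⟩ := hR₂ _ _ hR₁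
  obtain ⟨Q', hQ'⟩ := hFne W₂ hW₂
  have hQ'N : ¬ ∀ v ∈ Q', v ∈ N := by
    intro h
    have h5 := hfull W₂ hW₂ Q' hQ' h
    exact hxN (h x (by rw [h5]; exact hQD hx))
  push Not at hQ'N
  obtain ⟨x', hx', hx'N⟩ := hQ'N
  have hQ'e : ∀ v ∈ Q'.erase x', v ∈ N := by
    intro v hv
    by_contra hvN
    exact (mem_erase.1 hv).1 (hM₂.2.1 Q' hQ' v (mem_of_mem_erase hv) x' hx'
      (hfin W₂ K₂ hW₂ hK₂ Q' hQ' v (mem_of_mem_erase hv) hvN)
      (hfin W₂ K₂ hW₂ hK₂ Q' hQ' x' hx' hx'N))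
  have hQ'W : Q' ⊆ W₂ := (mem_cyc.1 hQ').1
  refine ⟨Q, Q', x, x', (mem_cyc.1 hQ).2, fun v hv => (dg_eq_two (hF W hW) hQ hv).1, hx,
    (mem_cyc.1 hQ').2, fun v hv => (dg_eq_two (hF W₂ hW₂) hQ' hv).1, hx', hQD,
    hQ'W.trans (hFD W₂ hW₂), hQe, hQ'e, ?_⟩
  rw [disjoint_left]
  intro v hv hv'
  have h5 : Q' ∩ Q.erase x = Q' := by
    refine eq_of_closed (mem_cyc.1 hQ').2 inter_subset_left
      ⟨v, mem_inter.2 ⟨mem_of_mem_erase hv', hv⟩⟩ ?_
    intro a ha b hb hab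
    exact mem_inter.2 ⟨hb, hPc a (mem_inter.1 ha).2 b (hQ'W hb) hab⟩
  have h6 : Q' ⊆ Q.erase x := by
    rw [← h5]
    exact inter_subset_right
  exact (mem_cyc.1 hQ').2.1 ((mem_cyc.1 hQ).2.2 Q'
    (lt_of_le_of_lt h6 (erase_ssubset hx)))

end Pool.Agent.Lib.MP_7aba48_co_G5
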