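import Pool.Agent.Lib.MP_7aba48_co_G5.Defs

/-!
# Greedy colouring from lists of the size of the degree
-/

namespace Pool.Agent.Lib.MP_7aba48_co_G5

open Finset

universe u

variable {V : Type u} [DecidableEq V] {G : SimpleGraph V}

/-- `D` is a component of the graph induced by `B`: a minimal nonempty closed subset. -/
def Comp (G : SimpleGraph V) (B D : Finset V) : Prop :=
  D ⊆ B ∧ D.Nonempty ∧ (∀ v ∈ D, ∀ w ∈ B, G.Adj v w → w ∈ D) ∧
    ∀ X ⊆ D, X.Nonempty → (∀ v ∈ X, ∀ w ∈ B, G.Adj v w → w ∈ X) → X = D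

/-- Components are disjoint. -/
theorem Comp.disj {B D D' : Finset V} (h : Comp G B D) (h' : Comp G B D') {v : V}
    (hv : v ∈ D) (hv' : v ∈ D') : D = D' := by
  have hc : ∀ x ∈ D ∩ D', ∀ w ∈ B, G.Adj x w → w ∈ D ∩ D' := by
    intro x hx w hw hxw
    rw [mem_inter] at hx ⊢
    exact ⟨h.2.2.1 x hx.1 w hw hxw, h'.2.2.1 x hx.2 w hw hxw⟩
  have hne : (D ∩ D').Nonempty := ⟨v, mem_inter.2 ⟨hv, hv'⟩⟩
  rw [← h.2.2.2 _ inter_subset_left hne hc, h'.2.2.2 _ inter_subset_right hne hc]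

omit [DecidableEq V] in
private lemma dg_mono {v : V} {S T : Finset V} (h : S ⊆ T) : dg G v S ≤ dg G v T := by
  refine card_le_card fun w hw => ?_
  rw [mem_nb] at hw ⊢
  exact ⟨h hw.1, hw.2⟩

private lemma dg_erase {v w : V} {S : Finset V} (hw : w ∈ S) (hvw : G.Adj v w) :
    dg G v (S.erase w) < dg G v S := by
  refine card_lt_card ⟨fun x hx => ?_, fun hsub => ?_⟩
  · rw [mem_nb] at hx ⊢
    exact ⟨mem_of_mem_erase hx.1, hx.2⟩
  · have h1 : w ∈ nb G v (S.erase w) := hsub (mem_nb.2 ⟨hw, hvw⟩)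
    exact notMem_erase w S (mem_nb.1 h1).1

/-- the general greedy lemma -/
private lemma greedy {α : Type*} [DecidableEq α] [Nonempty α] (L : V → Finset α) :
    ∀ (n : ℕ) (X : Finset V), X.card = n → (∀ v ∈ X, dg G v X ≤ (L v).card) →
      (∀ K ⊆ X, K.Nonempty → (∀ v ∈ K, ∀ w ∈ X, G.Adj v w → w ∈ K) →
        ∃ v ∈ K, dg G v X < (L v).card) →
      ∃ f : V → α, (∀ v ∈ X, f v ∈ L v) ∧ ∀ v ∈ X, ∀ w ∈ X, G.Adj v w → f v ≠ f w := by
  intro n
  induction n with
  | zero =>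
    intro X hX _ _
    rw [card_eq_zero] at hX
    subst hX
    exact ⟨fun _ => Classical.arbitrary α, by simp, by simp⟩
  | succ n ih =>
    intro X hX hdeg hK
    have hne : X.Nonempty := card_pos.1 (by omega)
    obtain ⟨v, hv, hlt⟩ := hK X Subset.rfl hne (fun _ _ w hw _ => hw)
    obtain ⟨f, hf1, hf2⟩ := ih (X.erase v) (by rw [card_erase_of_mem hv]; omega)
      (fun w hw => (dg_mono (erase_subset v X)).trans (hdeg w (mem_of_mem_erase hw)))
      (by
        intro K hKX hKne hKc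
        by_cases h : ∃ w ∈ K, G.Adj w v
        · obtain ⟨w, hw, hwv⟩ := h
          exact ⟨w, hw, (dg_erase hv hwv).trans_le (hdeg w (mem_of_mem_erase (hKX hw)))⟩
        · push Not at h
          obtain ⟨w, hw, hlt'⟩ := hK K (hKX.trans (erase_subset v X)) hKne (by
            intro x hx w hw hxw
            have hwv : w ≠ v := by
              rintro rfl
              exact h x hx hxw
            exact hKc x hx w (mem_erase.2 ⟨hwv, hw⟩) hxw)
          exact ⟨w, hw, (dg_mono (erase_subset v X)).trans_lt hlt'⟩)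
    -- a free colour at `v`
    have hcard : ((nb G v X).image f).card < (L v).card := card_image_le.trans_lt hlt
    obtain ⟨c, hc, hc'⟩ := exists_mem_notMem_of_card_lt_card hcard
    refine ⟨fun w => if w = v then c else f w, fun w hw => ?_, fun w hw u hu hwu => ?_⟩
    · by_cases h : w = v
      · simp only [h, if_true]
        exact hc
      · simp only [h, if_false]
        exact hf1 w (mem_erase.2 ⟨h, hw⟩)
    · by_cases h : w = v
      · have h' : u ≠ v := by
          rintro rfl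
          exact hwu.ne h
        simp only [h, if_true, h', if_false]
        rintro rfl
        rw [h] at hwu
        exact hc' (mem_image.2 ⟨u, mem_nb.2 ⟨hu, hwu⟩, rfl⟩)
      · by_cases h' : u = v
        · simp only [h, if_false, h', if_true]
          intro h2
          rw [h'] at hwu
          exact hc' (mem_image.2 ⟨w, mem_nb.2 ⟨hw, hwu.symm⟩, h2⟩)
        · simp only [h, if_false, h']
          exact hf2 w (mem_erase.2 ⟨h, hw⟩) u (mem_erase.2 ⟨h', hu⟩) hwu

/-- If the graph induced by `B` has no colouring from the lists `L` and all lists are at least as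
large as the degrees, then some component has no colouring, and in this component all lists have
exactly the size of the degree. -/
theorem exists_tight_comp {α : Type*} [DecidableEq α] [Nonempty α] {B : Finset V}
    (L : V → Finset α)
    (hL : ∀ v ∈ B, dg G v B ≤ (L v).card)
    (hbad : ¬ ∃ f : V → α, (∀ v ∈ B, f v ∈ L v) ∧
      ∀ v ∈ B, ∀ w ∈ B, G.Adj v w → f v ≠ f w) :
    ∃ D, Comp G B D ∧ (∀ v ∈ D, dg G v B = (L v).card) ∧
      ¬ ∃ f : V → α, (∀ v ∈ D, f v ∈ L v) ∧ ∀ v ∈ D, ∀ w ∈ D, G.Adj v w → f v ≠ f w := by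
  obtain ⟨P, hP⟩ : ∃ P : Finset V → Prop, ∀ D, P D ↔ D ⊆ B ∧
      (∀ v ∈ D, ∀ w ∈ B, G.Adj v w → w ∈ D) ∧
      ¬ ∃ f : V → α, (∀ v ∈ D, f v ∈ L v) ∧ ∀ v ∈ D, ∀ w ∈ D, G.Adj v w → f v ≠ f w :=
    ⟨_, fun _ => Iff.rfl⟩
  obtain ⟨D, hD, hmin⟩ : ∃ D, P D ∧ ∀ X, P X → D.card ≤ X.card := by
    have hex : ∃ n, ∃ D, P D ∧ D.card = n :=
      ⟨_, B, (hP B).2 ⟨Subset.rfl, fun _ _ w hw _ => hw, hbad⟩, rfl⟩
    classical
    obtain ⟨D, hD, hc⟩ := Nat.find_spec hex
    exact ⟨D, hD, fun X hX => hc ▸ Nat.find_min' hex ⟨X, hX, rfl⟩⟩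
  obtain ⟨hDB, hDc, hDbad⟩ := (hP D).1 hD
  -- smaller closed sets are colourable
  have hsm : ∀ X ⊆ D, X ≠ D → (∀ v ∈ X, ∀ w ∈ B, G.Adj v w → w ∈ X) →
      ∃ f : V → α, (∀ v ∈ X, f v ∈ L v) ∧ ∀ v ∈ X, ∀ w ∈ X, G.Adj v w → f v ≠ f w := by
    intro X hX hne hXc
    by_contra hcon
    have h1 := hmin X ((hP X).2 ⟨hX.trans hDB, hXc, hcon⟩)
    exact hne (eq_of_subset_of_card_le hX h1)
  have hDne : D.Nonempty := by
    rw [nonempty_iff_ne_empty]
    rintro rfl
    exact hDbad ⟨fun _ => Classical.arbitrary α, by simp, by simp⟩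
  have hcomp : ∀ X ⊆ D, X.Nonempty → (∀ v ∈ X, ∀ w ∈ B, G.Adj v w → w ∈ X) → X = D := by
    intro X hX hXne hXc
    by_contra hne
    obtain ⟨f, hf1, hf2⟩ := hsm X hX hne hXc
    have hYc : ∀ v ∈ D \ X, ∀ w ∈ B, G.Adj v w → w ∈ D \ X := by
      intro v hv w hw hvw
      rw [mem_sdiff] at hv ⊢
      exact ⟨hDc v hv.1 w hw hvw, fun hwX => hv.2 (hXc w hwX v (hDB hv.1) hvw.symm)⟩
    have hYne : D \ X ≠ D := by
      intro h
      obtain ⟨x, hx⟩ := hXne
      have h1 : x ∈ D \ X := by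
        rw [h]
        exact hX hx
      exact (mem_sdiff.1 h1).2 hx
    obtain ⟨g, hg1, hg2⟩ := hsm (D \ X) sdiff_subset hYne hYc
    refine hDbad ⟨fun w => if w ∈ X then f w else g w, fun w hw => ?_, fun w hw u hu hwu => ?_⟩
    · by_cases h : w ∈ X
      · simp only [h, if_true]
        exact hf1 w h
      · simp only [h, if_false]
        exact hg1 w (mem_sdiff.2 ⟨hw, h⟩)
    · by_cases h : w ∈ X
      · have h' : u ∈ X := hXc w h u (hDB hu) hwu
        simp only [h, h', if_true]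
        exact hf2 w h u h' hwu
      · have h' : u ∉ X := fun h' => h (hXc u h' w (hDB hw) hwu.symm)
        simp only [h, h', if_false]
        exact hg2 w (mem_sdiff.2 ⟨hw, h⟩) u (mem_sdiff.2 ⟨hu, h'⟩) hwu
  -- degrees in `B` and in `D` agree
  have hdg : ∀ v ∈ D, dg G v D = dg G v B := by
    intro v hv
    refine le_antisymm (dg_mono hDB) (card_le_card fun w hw => ?_)
    rw [mem_nb] at hw ⊢
    exact ⟨hDc v hv w hw.1 hw.2, hw.2⟩
  refine ⟨D, ⟨hDB, hDne, hDc, hcomp⟩, fun v hv => ?_, hDbad⟩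
  by_contra hne
  have hlt : dg G v B < (L v).card := lt_of_le_of_ne (hL v (hDB hv)) hne
  refine hDbad (greedy L D.card D rfl (fun w hw => ?_) fun K hKD hKne hKc => ?_)
  · rw [hdg w hw]
    exact hL w (hDB hw)
  · have hK : K = D := hcomp K hKD hKne fun w hw u hu hwu =>
      hKc w hw u (hDc w (hKD hw) u hu hwu) hwu
    exact ⟨v, hK ▸ hv, by rw [hdg v hv]; exact hlt⟩

end Pool.Agent.Lib.MP_7aba48_co_G5
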