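import Pool.Agent.Lib.MP_7aba48_co_G5.BlockA
import Pool.Agent.Lib.MP_7aba48_co_G5.Greedy

/-!
# Configurations in the components without a 3-colouring
-/

namespace Pool.Agent.Lib.MP_7aba48_co_G5

open Finset

universe u

variable {V : Type u} [DecidableEq V] {G : SimpleGraph V}

/-- The possible sets of five or six vertices. -/
def Conf (G : SimpleGraph V) (B U : Finset V) : Prop :=
  U ⊆ B ∧ ((U.card = 5 ∧ ∀ y, y ∉ B → dg G y U ≤ 1) ∨
    ∃ P P' : Finset V, Tri3 G P ∧ Tri3 G P' ∧ Disjoint P P' ∧ U = P ∪ P')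

/-- If `B` has no 3-colouring in which `N` avoids colour `0` then some component contains a
configuration of vertices of degree two, and all its vertices of degree two are in `N`. -/
theorem exists_conf [Fintype V] (hT : NoTri G) (h4 : NoC4 G) {B N : Finset V} (hN : N ⊆ B)
    (h3 : ∀ v ∈ B, dg G v B ≤ 3) (h2 : ∀ v ∈ N, dg G v B ≤ 2)
    (hbad : ¬ ∃ f : V → Fin 3, (∀ v ∈ N, f v ≠ 0) ∧
      ∀ v ∈ B, ∀ w ∈ B, G.Adj v w → f v ≠ f w) :
    ∃ D, Comp G B D ∧ (∀ v ∈ D, dg G v B = 2 → v ∈ N) ∧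
      ∃ U ⊆ D, (∀ v ∈ U, dg G v B = 2) ∧ Conf G B U := by
  obtain ⟨L, hL⟩ : ∃ L : V → Finset (Fin 3), ∀ v, L v = if v ∈ N then {1, 2} else univ :=
    ⟨_, fun _ => rfl⟩
  have hLN : ∀ v ∈ N, L v = {1, 2} := fun v hv => by rw [hL, if_pos hv]
  have hLn : ∀ v, v ∉ N → L v = univ := fun v hv => by rw [hL, if_neg hv]
  have c2 : ({1, 2} : Finset (Fin 3)).card = 2 := by decide
  have c3 : (univ : Finset (Fin 3)).card = 3 := by decide
  obtain ⟨D, hD, hdeg, hDbad⟩ := exists_tight_comp (G := G) (B := B) L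
    (fun v hv => by
      by_cases h : v ∈ N
      · rw [hLN v h, c2]
        exact h2 v h
      · rw [hLn v h, c3]
        exact h3 v hv)
    (by
      rintro ⟨f, hf1, hf2⟩
      refine hbad ⟨f, fun v hv => ?_, hf2⟩
      have h := hf1 v (hN hv)
      rw [hLN v hv] at h
      intro h0
      rw [h0] at h
      exact absurd h (by decide))
  have d2 : ∀ v ∈ D, v ∈ N → dg G v B = 2 := fun v hv hvN => by
    rw [hdeg v hv, hLN v hvN, c2]
  have d3 : ∀ v ∈ D, v ∉ N → dg G v B = 3 := fun v hv hvN => by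
    rw [hdeg v hv, hLn v hvN, c3]
  have hdg : ∀ v ∈ D, dg G v D = dg G v B := by
    intro v hv
    unfold dg
    congr 1
    ext w
    rw [mem_nb, mem_nb]
    exact ⟨fun h => ⟨hD.1 h.1, h.2⟩, fun h => ⟨hD.2.2.1 v hv w h.1 h.2, h.2⟩⟩
  have hbd := block_core (N := N) hT h4 (D := D)
    (fun X hX hne hcl => hD.2.2.2 X hX hne fun v hv w hw hvw =>
      hcl v hv w (hD.2.2.1 v (hX hv) w hw hvw) hvw)
    (fun v hv hvN => by rw [hdg v hv]; exact d2 v hv hvN)
    (fun v hv hvN => by rw [hdg v hv]; exact d3 v hv hvN)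
    (by
      rintro I hI hIN hind ⟨c, hc⟩
      refine hDbad ⟨fun v => if v ∈ I then 0 else if c v then 1 else 2, fun v hv => ?_,
        fun v hv w hw hvw => ?_⟩
      · by_cases hvN : v ∈ N
        · rw [hLN v hvN]
          have hvI : v ∉ I := fun h => hIN v h hvN
          simp only [if_neg hvI]
          cases c v <;> simp
        · rw [hLn v hvN]
          exact mem_univ _
      · by_cases hvI : v ∈ I
        · have hwI : w ∉ I := fun h => hind v hvI w h hvw
          simp only [if_pos hvI, if_neg hwI]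
          cases c w <;> simp
        · by_cases hwI : w ∈ I
          · simp only [if_neg hvI, if_pos hwI]
            cases c v <;> simp
          · simp only [if_neg hvI, if_neg hwI]
            have h := hc v (mem_sdiff.2 ⟨hv, hvI⟩) w (mem_sdiff.2 ⟨hw, hwI⟩) hvw
            revert h
            cases c v <;> cases c w <;> simp)
  refine ⟨D, hD, fun v hv hv2 => ?_, ?_⟩
  · by_contra h
    have := d3 v hv h
    omega
  · rcases hbd with ⟨hodd, hall⟩ | ⟨Q, Q', x, x', hQ, hQ2, hx, hQ', hQ2', hx', hQD, hQD', hQN,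
      hQN', hdisj⟩
    · have hD2 : ∀ v ∈ D, dg G v D = 2 := fun v hv => by
        rw [hdg v hv]; exact d2 v hv (hall v hv)
      by_cases h5 : D.card = 5
      · exact ⟨D, Subset.rfl, fun v hv => d2 v hv (hall v hv), hD.1, Or.inl ⟨h5, fun y hy =>
          dg_le_one_of_card_five hT h4 hodd hD2 h5 fun h => hy (hD.1 h)⟩⟩
      · have h6 : 6 ≤ D.card := by
          have := five_le_card hT h4 hodd hD2
          omega
        obtain ⟨P, hP, P', hP', t1, t2, hd⟩ := exists_two_tri3 hT h4 hodd hD2 h6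
        have hU : P ∪ P' ⊆ D := union_subset hP hP'
        exact ⟨P ∪ P', hU, fun v hv => d2 v (hU hv) (hall v (hU hv)), hU.trans hD.1,
          Or.inr ⟨P, P', t1, t2, hd, rfl⟩⟩
    · obtain ⟨P, hP, t1⟩ := exists_tri3_erase hT h4 hQ hQ2 hx
      obtain ⟨P', hP', t2⟩ := exists_tri3_erase hT h4 hQ' hQ2' hx'
      have hU : P ∪ P' ⊆ D := union_subset ((hP.trans (erase_subset _ _)).trans hQD)
        ((hP'.trans (erase_subset _ _)).trans hQD')
      have hUN : P ∪ P' ⊆ N := union_subset (hP.trans hQN) (hP'.trans hQN')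
      exact ⟨P ∪ P', hU, fun v hv => d2 v (hU hv) (hUN hv), hU.trans hD.1,
        Or.inr ⟨P, P', t1, t2, disjoint_of_subset_left hP (disjoint_of_subset_right hP' hdisj),
          rfl⟩⟩

end Pool.Agent.Lib.MP_7aba48_co_G5
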