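import Mathlib

/-!
# A counting lemma for choosing representatives (Rosenfeld's method)
-/

namespace Pool.Agent.Lib.MP_7aba48_co_G5

open Finset

section aux

variable {ι α : Type*} [Fintype ι] [DecidableEq ι]

open Classical in
/-- the number of choices with the property `P` -/
private noncomputable def cnt (Y : ι → Finset α) (P : (ι → α) → Prop) : ℕ :=
  ((Fintype.piFinset Y).filter P).card

private theorem cnt_congr {Y : ι → Finset α} {P Q : (ι → α) → Prop}
    (h : ∀ f, (∀ i, f i ∈ Y i) → (P f ↔ Q f)) : cnt Y P = cnt Y Q := by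
  classical
  unfold cnt
  congr 1
  refine filter_congr fun f hf => ?_
  exact h f (Fintype.mem_piFinset.1 hf)

private theorem cnt_mono {Y : ι → Finset α} {P Q : (ι → α) → Prop}
    (h : ∀ f, (∀ i, f i ∈ Y i) → P f → Q f) : cnt Y P ≤ cnt Y Q := by
  classical
  unfold cnt
  refine card_le_card fun f hf => ?_
  rw [mem_filter] at hf ⊢
  exact ⟨hf.1, h f (Fintype.mem_piFinset.1 hf.1) hf.2⟩

private theorem cnt_union {δ : Type*} {Y : ι → Finset α} {P Q : (ι → α) → Prop} (T : Finset δ)
    (R : δ → (ι → α) → Prop)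
    (h : ∀ f, (∀ i, f i ∈ Y i) → P f → Q f ∨ ∃ D ∈ T, R D f) :
    cnt Y P ≤ cnt Y Q + ∑ D ∈ T, cnt Y (R D) := by
  classical
  unfold cnt
  refine (card_le_card ?_).trans ((card_union_le _ _).trans
    (Nat.add_le_add_left card_biUnion_le _))
  intro f hf
  rw [mem_filter] at hf
  rw [mem_union, mem_biUnion]
  rcases h f (Fintype.mem_piFinset.1 hf.1) hf.2 with h1 | ⟨D, hD, h1⟩
  · exact Or.inl (mem_filter.2 ⟨hf.1, h1⟩)
  · exact Or.inr ⟨D, hD, mem_filter.2 ⟨hf.1, h1⟩⟩

private theorem cnt_alg (a r c p y q : ℝ) (hr : r ≠ 0) (hy : y ≠ 0) (hq : q ≠ 0) :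
    a / r * (c * p) / (y * q) = a * (c / y * (p / (r * q))) := by
  field_simp

private theorem cnt_one {Y : ι → Finset α} {R : (ι → α) → Prop} (s : ι)
    (hR : ∀ f y, R (Function.update f s y) ↔ R f) {C : Finset α} (hC : C ⊆ Y s) :
    cnt Y (fun f => R f ∧ f s ∈ C) * (Y s).card = cnt Y R * C.card := by
  classical
  unfold cnt
  rw [← card_product, ← card_product]
  have hupd : ∀ (f : ι → α) (y : α), f ∈ Fintype.piFinset Y → y ∈ Y s →
      Function.update f s y ∈ Fintype.piFinset Y := by
    intro f y hf hy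
    rw [Fintype.mem_piFinset] at hf ⊢
    intro i
    by_cases hi : i = s
    · subst hi
      rw [Function.update_self]
      exact hy
    · rw [Function.update_of_ne hi]
      exact hf i
  refine card_nbij' (fun p => (Function.update p.1 s p.2, p.1 s))
    (fun p => (Function.update p.1 s p.2, p.1 s)) ?_ ?_ ?_ ?_
  · rintro ⟨f, y⟩ hp
    simp only [coe_product, Set.mem_prod, mem_coe, mem_filter] at hp ⊢
    exact ⟨⟨hupd f y hp.1.1 hp.2, (hR f y).2 hp.1.2.1⟩, hp.1.2.2⟩
  · rintro ⟨f, y⟩ hp
    simp only [coe_product, Set.mem_prod, mem_coe, mem_filter] at hp ⊢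
    refine ⟨⟨hupd f y hp.1.1 (hC hp.2), (hR f y).2 hp.1.2, ?_⟩, ?_⟩
    · rw [Function.update_self]
      exact hp.2
    · exact Fintype.mem_piFinset.1 hp.1.1 s
  · rintro ⟨f, y⟩ _
    simp
  · rintro ⟨f, y⟩ _
    simp

private theorem cnt_indep {Y : ι → Finset α} (S : Finset ι) {C : ι → Finset α}
    (hC : ∀ i ∈ S, C i ⊆ Y i) : ∀ (R : (ι → α) → Prop),
    (∀ i ∈ S, ∀ f y, R (Function.update f i y) ↔ R f) →
    cnt Y (fun f => R f ∧ ∀ i ∈ S, f i ∈ C i) * ∏ i ∈ S, (Y i).card =
      cnt Y R * ∏ i ∈ S, (C i).card := by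
  classical
  induction S using Finset.induction_on with
  | empty =>
    intro R _
    have : cnt Y (fun f => R f ∧ ∀ i ∈ (∅ : Finset ι), f i ∈ C i) = cnt Y R :=
      cnt_congr fun f _ => by simp
    rw [this]
    simp
  | insert s S hs ih =>
    intro R hR
    have h1 := ih (fun i hi => hC i (mem_insert_of_mem hi)) (fun f => R f ∧ f s ∈ C s) (by
      intro i hi f y
      have hne : s ≠ i := fun h => hs (h ▸ hi)
      change (R (Function.update f i y) ∧ Function.update f i y s ∈ C s) ↔ (R f ∧ f s ∈ C s)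
      rw [Function.update_of_ne hne, hR i (mem_insert_of_mem hi)])
    have h2 := cnt_one (Y := Y) (R := R) s (hR s (mem_insert_self _ _))
      (hC s (mem_insert_self _ _))
    have h3 : cnt Y (fun f => R f ∧ ∀ i ∈ insert s S, f i ∈ C i) =
        cnt Y (fun f => (R f ∧ f s ∈ C s) ∧ ∀ i ∈ S, f i ∈ C i) := by
      refine cnt_congr fun f _ => ?_
      rw [forall_mem_insert, and_assoc]
    rw [h3, prod_insert hs, prod_insert hs]
    calc _ = (cnt Y (fun f => (R f ∧ f s ∈ C s) ∧ ∀ i ∈ S, f i ∈ C i) *
          ∏ i ∈ S, (Y i).card) * (Y s).card := by ring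
      _ = (cnt Y (fun f => R f ∧ f s ∈ C s) * (Y s).card) * ∏ i ∈ S, (C i).card := by
          rw [h1]; ring
      _ = _ := by rw [h2]; ring

private theorem cnt_pos_iff {Y : ι → Finset α} {P : (ι → α) → Prop} :
    0 < cnt Y P ↔ ∃ f, (∀ i, f i ∈ Y i) ∧ P f := by
  classical
  unfold cnt
  rw [card_pos]
  constructor
  · rintro ⟨f, hf⟩
    rw [mem_filter] at hf
    exact ⟨f, Fintype.mem_piFinset.1 hf.1, hf.2⟩
  · rintro ⟨f, hf, hP⟩
    exact ⟨f, mem_filter.2 ⟨Fintype.mem_piFinset.2 hf, hP⟩⟩

end aux

/-- Choose `f i` in `Y i` for all `i`, so that no event `D` happens; `D` happens if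
`f i` belongs to `Cov D i` for every `i` in `supp D`. -/
theorem exists_transversal {ι α δ : Type*} [Fintype ι] [DecidableEq ι] [DecidableEq α]
    (Y : ι → Finset α) (hY : ∀ i, (Y i).Nonempty)
    (E : Finset δ) (supp : δ → Finset ι) (Cov : δ → ι → Finset α)
    (hne : ∀ D ∈ E, (supp D).Nonempty)
    (hCov : ∀ D ∈ E, ∀ i ∈ supp D, Cov D i ⊆ Y i)
    (ρ : ℝ) (hρ : 0 < ρ) (hρ1 : ρ ≤ 1)
    (h : ∀ i, ∀ y ∈ Y i,
      ∑ D ∈ E.filter (fun D => i ∈ supp D ∧ y ∈ Cov D i),
        ∏ l ∈ (supp D).erase i, (((Cov D l).card : ℝ) / (ρ * (Y l).card)) ≤ 1 - ρ) :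
    ∃ f : ι → α, (∀ i, f i ∈ Y i) ∧ ∀ D ∈ E, ∃ i ∈ supp D, f i ∉ Cov D i := by
  classical
  -- the choices which avoid all events with support in `J`
  set V : Finset ι → (ι → α) → Prop := fun J f =>
    ∀ D ∈ E, supp D ⊆ J → ∃ i ∈ supp D, f i ∉ Cov D i with hV
  set N : Finset ι → ℝ := fun J => (cnt Y (V J) : ℝ) with hN
  have hN0 : ∀ J, 0 ≤ N J := fun J => Nat.cast_nonneg _
  have hYpos : ∀ i, (0 : ℝ) < (Y i).card := fun i => by exact_mod_cast (hY i).card_pos
  -- the weights
  set w : ι → δ → ℝ := fun j D =>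
    ∏ l ∈ (supp D).erase j, (((Cov D l).card : ℝ) / (ρ * (Y l).card)) with hw
  have hw0 : ∀ j D, 0 ≤ w j D := fun j D => prod_nonneg fun l _ =>
    div_nonneg (Nat.cast_nonneg _) (mul_nonneg hρ.le (Nat.cast_nonneg _))
  have claim : ∀ J : Finset ι, ∀ j ∉ J, ρ * N J ≤ N (insert j J) := by
    intro J
    induction J using Finset.strongInduction with
    | H J ih =>
      intro j hj
      -- consequence of the induction hypothesis
      have cons : ∀ (K T : Finset ι), Disjoint K T → K ∪ T ⊆ J →
          ρ ^ T.card * N K ≤ N (K ∪ T) := by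
        intro K T
        induction T using Finset.induction_on with
        | empty =>
          intro _ _
          simp
        | insert t T ht ih2 =>
          intro hd hsub
          have hd' : Disjoint K T := hd.mono_right (subset_insert _ _)
          have htK : t ∉ K := fun h => (disjoint_left.1 hd h) (mem_insert_self _ _)
          have htKT : t ∉ K ∪ T := by simp [htK, ht]
          have hsub' : K ∪ T ⊆ J := (union_subset_union_right (subset_insert _ _)).trans hsub
          have htJ : t ∈ J := hsub (mem_union_right _ (mem_insert_self _ _))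
          have hss : K ∪ T ⊂ J := by
            refine Finset.ssubset_iff_subset_ne.2 ⟨hsub', ?_⟩
            rintro h
            rw [← h] at htJ
            exact htKT htJ
          have h1 := ih2 hd' hsub'
          have h2 := ih (K ∪ T) hss t htKT
          rw [union_insert, card_insert_of_notMem ht, pow_succ]
          calc ρ ^ T.card * ρ * N K = ρ * (ρ ^ T.card * N K) := by ring
            _ ≤ ρ * N (K ∪ T) := mul_le_mul_of_nonneg_left h1 hρ.le
            _ ≤ _ := h2
      -- the number of functions for which `D` happens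
      have hbad : ∀ D ∈ E, j ∈ supp D → supp D ⊆ insert j J →
          (cnt Y (fun f => V J f ∧ ∀ i ∈ supp D, f i ∈ Cov D i) : ℝ) ≤
            N J * ((((Cov D j).card : ℝ) / (Y j).card) * w j D) := by
        intro D hD hjD hsub
        set S := supp D with hS
        have hle : cnt Y (fun f => V J f ∧ ∀ i ∈ S, f i ∈ Cov D i) ≤
            cnt Y (fun f => V (J \ S) f ∧ ∀ i ∈ S, f i ∈ Cov D i) := by
          refine cnt_mono fun f _ hf => ⟨?_, hf.2⟩
          intro D' hD' hsub'
          exact hf.1 D' hD' (hsub'.trans sdiff_subset)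
        have hind := cnt_indep (Y := Y) S (C := Cov D) (hCov D hD) (V (J \ S)) (by
          intro i hi f y
          simp only [hV]
          refine forall_congr' fun D' => forall_congr' fun _ => forall_congr' fun hs' => ?_
          refine exists_congr fun l => and_congr_right fun hl => ?_
          have hne : l ≠ i := by
            rintro rfl
            exact (mem_sdiff.1 (hs' hl)).2 hi
          rw [Function.update_of_ne hne])
        have hind' : (cnt Y (fun f => V (J \ S) f ∧ ∀ i ∈ S, f i ∈ Cov D i) : ℝ) *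
            ∏ i ∈ S, ((Y i).card : ℝ) = N (J \ S) * ∏ i ∈ S, ((Cov D i).card : ℝ) := by
          have := congrArg (Nat.cast (R := ℝ)) hind
          push_cast at this
          exact this
        have hJS : J \ S ∪ S.erase j = J := by
          ext x
          simp only [mem_union, mem_sdiff, mem_erase]
          constructor
          · rintro (h | h)
            · exact h.1
            · exact (mem_insert.1 (hsub h.2)).resolve_left h.1
          · intro hx
            by_cases hxS : x ∈ S
            · exact Or.inr ⟨fun h => hj (h ▸ hx), hxS⟩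
            · exact Or.inl ⟨hx, hxS⟩
        have hcons : ρ ^ (S.erase j).card * N (J \ S) ≤ N J := by
          have := cons (J \ S) (S.erase j)
            (disjoint_left.2 fun x hx hx' => (mem_sdiff.1 hx).2 (mem_erase.1 hx').2)
            (by rw [hJS])
          rwa [hJS] at this
        have hprodpos : (0 : ℝ) < ∏ i ∈ S, ((Y i).card : ℝ) := prod_pos fun i _ => hYpos i
        have hrpos : (0 : ℝ) < ρ ^ (S.erase j).card := pow_pos hρ _
        have hw' : w j D = (∏ l ∈ S.erase j, ((Cov D l).card : ℝ)) /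
            (ρ ^ (S.erase j).card * ∏ l ∈ S.erase j, ((Y l).card : ℝ)) := by
          simp only [hw]
          rw [prod_div_distrib, prod_mul_distrib, prod_const]
        have hp1 : ∏ i ∈ S, ((Y i).card : ℝ) = (Y j).card * ∏ l ∈ S.erase j, ((Y l).card : ℝ) :=
          (mul_prod_erase S _ hjD).symm
        have hp2 : ∏ i ∈ S, ((Cov D i).card : ℝ) =
            (Cov D j).card * ∏ l ∈ S.erase j, ((Cov D l).card : ℝ) :=
          (mul_prod_erase S _ hjD).symm
        have hq : (0 : ℝ) < ∏ l ∈ S.erase j, ((Y l).card : ℝ) := prod_pos fun i _ => hYpos i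
        have hc0 : (0 : ℝ) ≤ ∏ l ∈ S.erase j, ((Cov D l).card : ℝ) :=
          prod_nonneg fun i _ => Nat.cast_nonneg _
        have hle' : (cnt Y (fun f => V J f ∧ ∀ i ∈ S, f i ∈ Cov D i) : ℝ) ≤
            (cnt Y (fun f => V (J \ S) f ∧ ∀ i ∈ S, f i ∈ Cov D i) : ℝ) := by
          exact_mod_cast hle
        refine hle'.trans ?_
        have h3 : (cnt Y (fun f => V (J \ S) f ∧ ∀ i ∈ S, f i ∈ Cov D i) : ℝ) =
            N (J \ S) * (∏ i ∈ S, ((Cov D i).card : ℝ)) / ∏ i ∈ S, ((Y i).card : ℝ) := by
          rw [← hind', mul_div_assoc, div_self hprodpos.ne', mul_one]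
        have h4 : N (J \ S) ≤ N J / ρ ^ (S.erase j).card := by
          rw [le_div_iff₀ hrpos, mul_comm]
          exact hcons
        rw [h3, hw', hp1, hp2]
        calc N (J \ S) * ((Cov D j).card * ∏ l ∈ S.erase j, ((Cov D l).card : ℝ)) /
              ((Y j).card * ∏ l ∈ S.erase j, ((Y l).card : ℝ)) ≤
            (N J / ρ ^ (S.erase j).card) *
              ((Cov D j).card * ∏ l ∈ S.erase j, ((Cov D l).card : ℝ)) /
              ((Y j).card * ∏ l ∈ S.erase j, ((Y l).card : ℝ)) := by
              refine div_le_div_of_nonneg_right ?_ (mul_pos (hYpos j) hq).le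
              exact mul_le_mul_of_nonneg_right h4 (mul_nonneg (Nat.cast_nonneg _) hc0)
          _ = _ := cnt_alg _ _ _ _ _ _ hrpos.ne' (hYpos j).ne' hq.ne'
      -- the bad functions
      have hunion : (cnt Y (V J) : ℝ) ≤ (cnt Y (V (insert j J)) : ℝ) +
          ∑ D ∈ E.filter (fun D => j ∈ supp D ∧ supp D ⊆ insert j J),
            (cnt Y (fun f => V J f ∧ ∀ i ∈ supp D, f i ∈ Cov D i) : ℝ) := by
        have h1 := cnt_union (Y := Y) (P := V J) (Q := V (insert j J))
          (E.filter (fun D => j ∈ supp D ∧ supp D ⊆ insert j J))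
          (fun D f => V J f ∧ ∀ i ∈ supp D, f i ∈ Cov D i) (by
          intro f _ hf
          by_cases hf2 : V (insert j J) f
          · exact Or.inl hf2
          · right
            simp only [hV] at hf2
            push Not at hf2
            obtain ⟨D, hD, hs, hall⟩ := hf2
            refine ⟨D, mem_filter.2 ⟨hD, ?_, hs⟩, hf, hall⟩
            by_contra hjD
            have hsJ : supp D ⊆ J := by
              intro x hx
              refine (mem_insert.1 (hs hx)).resolve_left ?_
              rintro rfl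
              exact hjD hx
            obtain ⟨i, hi, hni⟩ := hf D hD hsJ
            exact hni (hall i hi))
        exact_mod_cast h1
      have hsum : ∑ D ∈ E.filter (fun D => j ∈ supp D ∧ supp D ⊆ insert j J),
            (cnt Y (fun f => V J f ∧ ∀ i ∈ supp D, f i ∈ Cov D i) : ℝ) ≤
          N J * (1 - ρ) := by
        have h1 : ∑ D ∈ E.filter (fun D => j ∈ supp D ∧ supp D ⊆ insert j J),
            (cnt Y (fun f => V J f ∧ ∀ i ∈ supp D, f i ∈ Cov D i) : ℝ) ≤
            ∑ D ∈ E.filter (fun D => j ∈ supp D),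
              N J * ((((Cov D j).card : ℝ) / (Y j).card) * w j D) := by
          refine (sum_le_sum fun D hD => ?_).trans
            (sum_le_sum_of_subset_of_nonneg ?_ ?_)
          · rw [mem_filter] at hD
            exact hbad D hD.1 hD.2.1 hD.2.2
          · intro D hD
            rw [mem_filter] at hD ⊢
            exact ⟨hD.1, hD.2.1⟩
          · intro D _ _
            exact mul_nonneg (hN0 J) (mul_nonneg
              (div_nonneg (Nat.cast_nonneg _) (hYpos j).le) (hw0 j D))
        have h2 : ∀ D ∈ E.filter (fun D => j ∈ supp D),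
            N J * ((((Cov D j).card : ℝ) / (Y j).card) * w j D) =
            N J / (Y j).card * ∑ y ∈ Y j, if y ∈ Cov D j then w j D else 0 := by
          intro D hD
          rw [mem_filter] at hD
          have h3 : (Y j).filter (fun y => y ∈ Cov D j) = Cov D j := by
            ext y
            rw [mem_filter]
            exact ⟨fun h => h.2, fun h => ⟨hCov D hD.1 j hD.2 h, h⟩⟩
          rw [← sum_filter, h3, sum_const, nsmul_eq_mul]
          ring
        have h3 : ∑ D ∈ E.filter (fun D => j ∈ supp D), ∑ y ∈ Y j,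
            (if y ∈ Cov D j then w j D else 0) ≤ (Y j).card * (1 - ρ) := by
          rw [sum_comm]
          have h4 : ∀ y ∈ Y j, ∑ D ∈ E.filter (fun D => j ∈ supp D),
              (if y ∈ Cov D j then w j D else 0) ≤ 1 - ρ := by
            intro y hy
            rw [← sum_filter, filter_filter]
            exact h j y hy
          calc _ ≤ ∑ y ∈ Y j, (1 - ρ) := sum_le_sum h4
            _ = _ := by rw [sum_const, nsmul_eq_mul]
        calc _ ≤ _ := h1
          _ = N J / (Y j).card * ∑ D ∈ E.filter (fun D => j ∈ supp D), ∑ y ∈ Y j,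
              (if y ∈ Cov D j then w j D else 0) := by
              rw [sum_congr rfl h2, mul_sum]
          _ ≤ N J / (Y j).card * ((Y j).card * (1 - ρ)) :=
              mul_le_mul_of_nonneg_left h3 (div_nonneg (hN0 J) (hYpos j).le)
          _ = N J * (1 - ρ) := by
              rw [← mul_assoc, div_mul_cancel₀ _ (hYpos j).ne']
      have h5 : N J ≤ N (insert j J) + N J * (1 - ρ) := hunion.trans (by
        have := hsum
        linarith)
      linarith
  -- conclusion
  have hfin : ∀ J : Finset ι, ρ ^ J.card * N ∅ ≤ N J := by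
    intro J
    induction J using Finset.induction_on with
    | empty => simp
    | insert j J hj ih =>
      rw [card_insert_of_notMem hj, pow_succ]
      calc ρ ^ J.card * ρ * N ∅ = ρ * (ρ ^ J.card * N ∅) := by ring
        _ ≤ ρ * N J := mul_le_mul_of_nonneg_left ih hρ.le
        _ ≤ _ := claim J j hj
  have hNe : 0 < N ∅ := by
    have h1 : 0 < cnt Y (V ∅) := by
      rw [cnt_pos_iff]
      choose g hg using hY
      refine ⟨g, hg, ?_⟩
      intro D hD hsub
      obtain ⟨x, hx⟩ := hne D hD
      exact absurd (hsub hx) (notMem_empty x)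
    exact Nat.cast_pos.2 h1
  have hpos : 0 < N univ := lt_of_lt_of_le (mul_pos (pow_pos hρ _) hNe) (hfin univ)
  have hpos' : 0 < cnt Y (V univ) := Nat.cast_pos.1 hpos
  rw [cnt_pos_iff] at hpos'
  obtain ⟨f, hf, hP⟩ := hpos'
  exact ⟨f, hf, fun D hD => hP D hD (subset_univ _)⟩

end Pool.Agent.Lib.MP_7aba48_co_G5
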