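import Mathlib

/-!
# Graphs of girth at least five and maximum degree at most six: basic notions

Vertex sets are finsets. `nb G v S` is the set of neighbours of `v` in `S`, `dg G v S` its size.
`OddC G C`: the set `C` is a minimal set whose induced graph is not 2-colourable.
`cyc G W`: the set of all subsets of `W` which are minimal not 2-colourable; if the graph induced
by `W` has maximum degree at most two, these are its odd cycles.
-/

namespace Pool.Agent.Lib.MP_7aba48_co_G5

open Finset

universe u

variable {V : Type u}

/-- Neighbours of `v` in `S`. -/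
noncomputable def nb (G : SimpleGraph V) (v : V) (S : Finset V) : Finset V := by
  classical exact S.filter (fun w => G.Adj v w)

@[simp] lemma mem_nb {G : SimpleGraph V} {v w : V} {S : Finset V} :
    w ∈ nb G v S ↔ w ∈ S ∧ G.Adj v w := by
  classical
  unfold nb
  simp

/-- Number of neighbours of `v` in `S`. -/
noncomputable def dg (G : SimpleGraph V) (v : V) (S : Finset V) : ℕ := (nb G v S).card

/-- The graph induced by `S` is 2-colourable. -/
def Col2 (G : SimpleGraph V) (S : Finset V) : Prop :=
  ∃ c : V → Bool, ∀ v ∈ S, ∀ w ∈ S, G.Adj v w → c v ≠ c w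

/-- `C` is a minimal set which is not 2-colourable. -/
def OddC (G : SimpleGraph V) (C : Finset V) : Prop :=
  ¬ Col2 G C ∧ ∀ D, D ⊂ C → Col2 G D

/-- All minimal non-2-colourable subsets of `W`. -/
noncomputable def cyc (G : SimpleGraph V) (W : Finset V) : Finset (Finset V) := by
  classical exact W.powerset.filter (fun C => OddC G C)

@[simp] lemma mem_cyc {G : SimpleGraph V} {C W : Finset V} :
    C ∈ cyc G W ↔ C ⊆ W ∧ OddC G C := by
  classical
  unfold cyc
  simp

/-- No triangles. -/
def NoTri (G : SimpleGraph V) : Prop := ∀ a b c, G.Adj a b → G.Adj b c → ¬ G.Adj a c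

/-- Two distinct vertices have at most one common neighbour. -/
def NoC4 (G : SimpleGraph V) : Prop :=
  ∀ a b, a ≠ b → ∀ x y, G.Adj a x → G.Adj b x → G.Adj a y → G.Adj b y → x = y

end Pool.Agent.Lib.MP_7aba48_co_G5
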