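import Pool.Agent.Lib.MP_7aba48_co_G5.Defs

/-!
# Extremal bipartitions: moving single vertices
-/

namespace Pool.Agent.Lib.MP_7aba48_co_G5

open Finset

set_option linter.unusedSectionVars false

universe u

variable {V : Type u} [DecidableEq V] [Fintype V] {G : SimpleGraph V}

/-- Twice the number of edges inside the two sides, plus four times the size of the first side. -/
noncomputable def pot (G : SimpleGraph V) (A : Finset V) : ℕ :=
  ∑ v ∈ A, dg G v A + ∑ v ∈ Aᶜ, dg G v Aᶜ + 4 * A.card

/-- `A` minimises the potential. -/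
def PMin (G : SimpleGraph V) (A : Finset V) : Prop := ∀ A' : Finset V, pot G A ≤ pot G A'

private theorem dg_union {v : V} {A B : Finset V} (h : Disjoint A B) :
    dg G v (A ∪ B) = dg G v A + dg G v B := by
  classical
  unfold dg
  have h1 : nb G v (A ∪ B) = nb G v A ∪ nb G v B := by
    ext w
    simp only [mem_nb, Finset.mem_union]
    tauto
  rw [h1, Finset.card_union_of_disjoint]
  rw [Finset.disjoint_left] at h ⊢
  intro w hw hw'
  exact h (mem_nb.1 hw).1 (mem_nb.1 hw').1

open Classical in
private theorem dg_singleton (v x : V) : dg G v {x} = if G.Adj v x then 1 else 0 := by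
  unfold dg
  by_cases h : G.Adj v x
  · rw [if_pos h]
    have h1 : nb G v {x} = {x} := by
      ext w
      simp only [mem_nb, Finset.mem_singleton]
      constructor
      · exact fun h' => h'.1
      · rintro rfl
        exact ⟨rfl, h⟩
    rw [h1, Finset.card_singleton]
  · rw [if_neg h, Finset.card_eq_zero]
    ext w
    simp only [mem_nb, Finset.mem_singleton, Finset.notMem_empty, iff_false, not_and]
    rintro rfl
    exact h

open Classical in
private theorem dg_insert {v x : V} {S : Finset V} (hx : x ∉ S) :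
    dg G v (insert x S) = dg G v S + if G.Adj v x then 1 else 0 := by
  have h1 : insert x S = S ∪ {x} := by
    ext w
    simp only [Finset.mem_insert, Finset.mem_union, Finset.mem_singleton]
    tauto
  rw [h1, dg_union (Finset.disjoint_singleton_right.2 hx), dg_singleton]

private theorem dg_insert_self {x : V} {S : Finset V} (hx : x ∉ S) :
    dg G x (insert x S) = dg G x S := by
  classical
  rw [dg_insert hx, if_neg (G.loopless.irrefl x), add_zero]

private theorem dg_erase_self (x : V) (S : Finset V) : dg G x (S.erase x) = dg G x S := by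
  by_cases hx : x ∈ S
  · conv_rhs => rw [← Finset.insert_erase hx]
    rw [dg_insert_self (Finset.notMem_erase x S)]
  · rw [Finset.erase_eq_of_notMem hx]

open Classical in
private theorem sum_adj (x : V) (S : Finset V) :
    ∑ v ∈ S, (if G.Adj v x then 1 else 0) = dg G x S := by
  rw [← Finset.card_filter]
  unfold dg
  congr 1
  ext w
  simp only [mem_nb, Finset.mem_filter, G.adj_comm]

private theorem inner_insert {x : V} {S : Finset V} (hx : x ∉ S) :
    ∑ v ∈ insert x S, dg G v (insert x S) = ∑ v ∈ S, dg G v S + 2 * dg G x S := by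
  classical
  rw [Finset.sum_insert hx, dg_insert_self hx]
  have h1 : ∑ v ∈ S, dg G v (insert x S) = ∑ v ∈ S, dg G v S + dg G x S := by
    rw [← sum_adj x S, ← Finset.sum_add_distrib]
    exact Finset.sum_congr rfl fun v _ => dg_insert hx
  rw [h1]
  ring

theorem exists_pmin (G : SimpleGraph V) : ∃ A : Finset V, PMin G A := by
  obtain ⟨A, _, hA⟩ := Finset.exists_min_image univ (pot G) ⟨∅, Finset.mem_univ _⟩
  exact ⟨A, fun A' => hA A' (Finset.mem_univ _)⟩

theorem dg_add_compl (v : V) (A : Finset V) : dg G v A + dg G v Aᶜ = dg G v univ := by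
  rw [← dg_union disjoint_compl_right, Finset.union_compl]

private theorem pot_insert' {A : Finset V} {x : V} (hx : x ∉ A) :
    pot G (insert x A) + 2 * dg G x Aᶜ = pot G A + 2 * dg G x A + 4 := by
  unfold pot
  have hxc : x ∈ Aᶜ := Finset.mem_compl.2 hx
  have h1 : (insert x A)ᶜ = Aᶜ.erase x := by
    ext w
    simp only [Finset.mem_compl, Finset.mem_insert, Finset.mem_erase, not_or]
  have h2 : ∑ v ∈ Aᶜ, dg G v Aᶜ =
      ∑ v ∈ Aᶜ.erase x, dg G v (Aᶜ.erase x) + 2 * dg G x (Aᶜ.erase x) := by
    rw [← inner_insert (Finset.notMem_erase x Aᶜ), Finset.insert_erase hxc]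
  rw [h1, inner_insert hx, h2, dg_erase_self, Finset.card_insert_of_notMem hx]
  ring

theorem pot_erase {A : Finset V} {x : V} (hx : x ∈ A) :
    pot G (A.erase x) + 2 * dg G x A + 4 = pot G A + 2 * dg G x Aᶜ := by
  have h1 := pot_insert' (G := G) (Finset.notMem_erase x A)
  have h2 : (A.erase x)ᶜ = insert x Aᶜ := by
    ext w
    simp only [Finset.mem_compl, Finset.mem_insert, Finset.mem_erase]
    tauto
  rw [Finset.insert_erase hx, dg_erase_self, h2,
    dg_insert_self (fun h => (Finset.mem_compl.1 h) hx)] at h1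
  omega

theorem pot_insert {A : Finset V} {x : V} (hx : x ∉ A) :
    pot G (insert x A) + 2 * dg G x Aᶜ = pot G A + 2 * dg G x A + 4 := by
  exact pot_insert' hx

/-- Degrees of the vertices of `A` for a minimising `A`. -/
theorem PMin.in_side (hΔ : ∀ v, dg G v univ ≤ 6) {A : Finset V} (h : PMin G A) {x : V}
    (hx : x ∈ A) :
    dg G x A ≤ 2 ∧ (dg G x A = 2 → dg G x Aᶜ = 4 ∧ PMin G (A.erase x)) := by
  have h1 := h (A.erase x)
  have h2 := pot_erase (G := G) hx
  have h3 := dg_add_compl (G := G) x A
  have h4 := hΔ x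
  refine ⟨by omega, fun h5 => ⟨by omega, fun A' => ?_⟩⟩
  have h6 := h A'
  omega

/-- Degrees of the other vertices for a minimising `A`. -/
theorem PMin.out_side (hΔ : ∀ v, dg G v univ ≤ 6) {A : Finset V} (h : PMin G A) {x : V}
    (hx : x ∉ A) :
    dg G x Aᶜ ≤ 4 ∧ (dg G x Aᶜ = 4 → dg G x A = 2 ∧ PMin G (insert x A)) := by
  have h1 := h (insert x A)
  have h2 := pot_insert (G := G) hx
  have h3 := dg_add_compl (G := G) x A
  have h4 := hΔ x
  refine ⟨by omega, fun h5 => ⟨by omega, fun A' => ?_⟩⟩
  have h6 := h A'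
  omega

/-- Moving an independent set of vertices of degree two to the other side. -/
theorem PMin.sdiff (hΔ : ∀ v, dg G v univ ≤ 6) {A : Finset V} (h : PMin G A) {R : Finset V}
    (hR : R ⊆ A) (hind : ∀ r ∈ R, ∀ s ∈ R, ¬ G.Adj r s) (h2 : ∀ r ∈ R, dg G r A = 2) :
    PMin G (A \ R) := by
  induction R using Finset.induction_on with
  | empty => rwa [Finset.sdiff_empty]
  | insert r R hr ih =>
    have hR' : R ⊆ A := fun x hx => hR (Finset.mem_insert_of_mem hx)
    have h' := ih hR' (fun a ha b hb => hind a (Finset.mem_insert_of_mem ha) b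
      (Finset.mem_insert_of_mem hb)) (fun a ha => h2 a (Finset.mem_insert_of_mem ha))
    have hrA : r ∈ A := hR (Finset.mem_insert_self _ _)
    have hrR : r ∈ A \ R := Finset.mem_sdiff.2 ⟨hrA, hr⟩
    have h3 : dg G r (A \ R) = 2 := by
      have h4 : dg G r A = dg G r (A \ R) + dg G r R := by
        rw [← dg_union Finset.sdiff_disjoint, Finset.sdiff_union_of_subset hR']
      have h5 : dg G r R = 0 := by
        unfold dg
        rw [Finset.card_eq_zero, Finset.eq_empty_iff_forall_notMem]
        intro w hw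
        rw [mem_nb] at hw
        exact hind r (Finset.mem_insert_self _ _) w (Finset.mem_insert_of_mem hw.1) hw.2
      have h6 := h2 r (Finset.mem_insert_self _ _)
      omega
    have h7 : A \ insert r R = (A \ R).erase r := by
      ext w
      simp only [Finset.mem_sdiff, Finset.mem_insert, Finset.mem_erase, not_or]
      tauto
    rw [h7]
    exact ((h'.in_side hΔ hrR).2 h3).2

/-- A vertex outside `A` with many neighbours outside `A` has few on an independent set of
vertices of degree two. -/
theorem PMin.dg_add_le (hΔ : ∀ v, dg G v univ ≤ 6) {A : Finset V} (h : PMin G A) {R : Finset V}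
    (hR : R ⊆ A) (hind : ∀ r ∈ R, ∀ s ∈ R, ¬ G.Adj r s) (h2 : ∀ r ∈ R, dg G r A = 2) {u : V}
    (hu : u ∉ A) : dg G u Aᶜ + dg G u R ≤ 4 := by
  have h' := h.sdiff hΔ hR hind h2
  have hu' : u ∉ A \ R := fun h3 => hu (Finset.mem_sdiff.1 h3).1
  have h3 : (A \ R)ᶜ = Aᶜ ∪ R := by
    ext w
    simp only [Finset.mem_compl, Finset.mem_sdiff, Finset.mem_union]
    tauto
  have h4 : Disjoint Aᶜ R := by
    rw [Finset.disjoint_left]
    exact fun w hw hw' => (Finset.mem_compl.1 hw) (hR hw')
  rw [← dg_union h4, ← h3]
  exact (h'.out_side hΔ hu').1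

end Pool.Agent.Lib.MP_7aba48_co_G5
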