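import Pool.Agent.Lib.MP_7aba48_co_G5.ExtA
import Pool.Agent.Lib.MP_7aba48_co_G5.Token

/-!
# Extremal bipartitions: the family with the largest value of `|A| - |cyc A|`
-/

namespace Pool.Agent.Lib.MP_7aba48_co_G5

open Finset

universe u

variable {V : Type u} [DecidableEq V] [Fintype V] {G : SimpleGraph V}

/-- Minimisers of the potential with the largest value of `|A| - |cyc A|`. -/
def Fam (G : SimpleGraph V) (A : Finset V) : Prop :=
  PMin G A ∧ ∀ A' : Finset V, PMin G A' →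
    (A'.card : ℤ) - (cyc G A').card ≤ (A.card : ℤ) - (cyc G A).card

theorem exists_fam (G : SimpleGraph V) :
    ∃ A : Finset V, Fam G A ∧ ∀ A' : Finset V, Fam G A' → A'.card ≤ A.card := by
  classical
  obtain ⟨A₀, hA₀⟩ := exists_pmin G
  obtain ⟨A₁, h₁, hmax⟩ := exists_max_image (univ.filter fun A => PMin G A)
    (fun A => (A.card : ℤ) - (cyc G A).card) ⟨A₀, mem_filter.2 ⟨mem_univ _, hA₀⟩⟩
  have hF₁ : Fam G A₁ := ⟨(mem_filter.1 h₁).2, fun A' hA' =>
    hmax A' (mem_filter.2 ⟨mem_univ _, hA'⟩)⟩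
  obtain ⟨A, hA, hAmax⟩ := exists_max_image (univ.filter fun A => Fam G A)
    (fun A => A.card) ⟨A₁, mem_filter.2 ⟨mem_univ _, hF₁⟩⟩
  exact ⟨A, (mem_filter.1 hA).2, fun A' h => hAmax A' (mem_filter.2 ⟨mem_univ _, h⟩)⟩

/-- Moving a vertex of an odd cycle out. -/
theorem fam_erase (hΔ : ∀ v, dg G v univ ≤ 6) {A : Finset V} (h : Fam G A) {C : Finset V}
    (hC : C ∈ cyc G A) {v : V} (hv : v ∈ C) : Fam G (A.erase v) := by
  have hW : ∀ v ∈ A, dg G v A ≤ 2 := fun v hv => (h.1.in_side hΔ hv).1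
  have hvA : v ∈ A := (mem_cyc.1 hC).1 hv
  have h1 := ((h.1.in_side hΔ hvA).2 (dg_eq_two hW hC hv).2.1).2
  have h2 := card_erase_add_one hvA
  have h3 := cyc_erase_card hW hC hv
  refine ⟨h1, fun A' hA' => ?_⟩
  have h5 := h.2 A' hA'
  omega

/-- Moving in a vertex with four neighbours outside. -/
theorem fam_insert (hΔ : ∀ v, dg G v univ ≤ 6) {A : Finset V} (h : Fam G A) {w : V}
    (hw : w ∉ A) (h4 : dg G w Aᶜ = 4) :
    Fam G (insert w A) ∧ ∃ C ∈ cyc G (insert w A), w ∈ C := by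
  have h1 := ((h.1.out_side hΔ hw).2 h4).2
  have h2 := cyc_insert_card hw (fun v hv => (h1.in_side hΔ hv).1)
  have h3 := card_insert_of_notMem hw
  have h5 := h.2 _ h1
  refine ⟨⟨h1, fun A' hA' => ?_⟩, ?_⟩
  · have h6 := h.2 A' hA'
    omega
  · by_contra h6
    push Not at h6
    have h7 := cyc_insert_card_le hw h6
    omega

/-- Moving out one vertex from each of several odd cycles. -/
theorem fam_sdiff (hΔ : ∀ v, dg G v univ ≤ 6) {A : Finset V} (h : Fam G A) {T : Finset V}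
    (hT : ∀ t ∈ T, ∃ C ∈ cyc G A, t ∈ C)
    (hT1 : ∀ C ∈ cyc G A, ∀ a ∈ C, ∀ b ∈ C, a ∈ T → b ∈ T → a = b) : Fam G (A \ T) := by
  induction T using Finset.induction_on with
  | empty => rwa [sdiff_empty]
  | insert t T ht ih =>
    have h1 := ih (fun s hs => hT s (mem_insert_of_mem hs)) (fun C hC a ha b hb haT hbT =>
      hT1 C hC a ha b hb (mem_insert_of_mem haT) (mem_insert_of_mem hbT))
    obtain ⟨C, hC, htC⟩ := hT t (mem_insert_self t T)
    obtain ⟨hCA, hCo⟩ := mem_cyc.1 hC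
    have h2 : C ∈ cyc G (A \ T) := by
      refine mem_cyc.2 ⟨fun a ha => mem_sdiff.2 ⟨hCA ha, fun haT => ?_⟩, hCo⟩
      have h3 := hT1 C hC a ha t htC (mem_insert_of_mem haT) (mem_insert_self t T)
      exact ht (h3 ▸ haT)
    have h3 := fam_erase hΔ h1 h2 htC
    have h5 : (A \ T).erase t = A \ insert t T := by
      ext z
      simp only [mem_erase, mem_sdiff, mem_insert, not_or]
      tauto
    rwa [h5] at h3

private theorem extB_compl {A U : Finset V} {u : V} (h : ∀ w ∈ U, ¬ G.Adj u w) :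
    dg G u (A ∪ U)ᶜ = dg G u Aᶜ := by
  unfold dg
  congr 1
  ext w
  simp only [mem_nb, mem_compl, mem_union, not_or]
  constructor
  · rintro ⟨⟨h1, _⟩, h3⟩
    exact ⟨h1, h3⟩
  · rintro ⟨h1, h3⟩
    exact ⟨⟨h1, fun h5 => h w h5 h3⟩, h3⟩

private theorem extB_union (hΔ : ∀ v, dg G v univ ≤ 6) {A : Finset V} (h : Fam G A)
    {U : Finset V} (hU : ∀ u ∈ U, u ∉ A ∧ dg G u Aᶜ = 4)
    (hind : ∀ r ∈ U, ∀ s ∈ U, ¬ G.Adj r s) : Fam G (A ∪ U) := by
  induction U using Finset.induction_on with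
  | empty => rwa [union_empty]
  | insert u U hu ih =>
    have h1 := ih (fun s hs => hU s (mem_insert_of_mem hs)) (fun r hr s hs =>
      hind r (mem_insert_of_mem hr) s (mem_insert_of_mem hs))
    have h2 : u ∉ A ∪ U := by
      rw [mem_union, not_or]
      exact ⟨(hU u (mem_insert_self u U)).1, hu⟩
    have h3 : dg G u (A ∪ U)ᶜ = 4 := by
      rw [extB_compl fun w hw => hind u (mem_insert_self u U) w (mem_insert_of_mem hw)]
      exact (hU u (mem_insert_self u U)).2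
    have h5 := (fam_insert hΔ h1 h2 h3).1
    rwa [← union_insert] at h5

/-- Moving in an independent set of vertices with four neighbours outside. -/
theorem fam_union (hΔ : ∀ v, dg G v univ ≤ 6) {A : Finset V} (h : Fam G A) {U : Finset V}
    (hU : ∀ u ∈ U, u ∉ A ∧ dg G u Aᶜ = 4) (hind : ∀ r ∈ U, ∀ s ∈ U, ¬ G.Adj r s) :
    Fam G (A ∪ U) ∧ ∀ u ∈ U, ∃ C ∈ cyc G (A ∪ U), u ∈ C ∧ ∀ v ∈ C, v ∈ U → v = u := by
  have hFU := extB_union hΔ h hU hind
  have hW : ∀ v ∈ A ∪ U, dg G v (A ∪ U) ≤ 2 := fun v hv => (hFU.1.in_side hΔ hv).1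
  have key : ∀ S ⊆ U, ∀ u ∈ S, ∃ C ∈ cyc G (A ∪ S), u ∈ C := by
    intro S hS u hu
    have h1 := extB_union hΔ h (U := S.erase u)
      (fun s hs => hU s (hS (mem_of_mem_erase hs)))
      (fun r hr s hs => hind r (hS (mem_of_mem_erase hr)) s (hS (mem_of_mem_erase hs)))
    have h2 : u ∉ A ∪ S.erase u := by
      rw [mem_union, not_or]
      exact ⟨(hU u (hS hu)).1, notMem_erase u S⟩
    have h3 : dg G u (A ∪ S.erase u)ᶜ = 4 := by
      rw [extB_compl fun w hw => hind u (hS hu) w (hS (mem_of_mem_erase hw))]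
      exact (hU u (hS hu)).2
    have h5 := (fam_insert hΔ h1 h2 h3).2
    rwa [← union_insert, insert_erase hu] at h5
  refine ⟨hFU, fun u hu => ?_⟩
  obtain ⟨C, hC, huC⟩ := key U (Subset.refl U) u hu
  refine ⟨C, hC, huC, fun v hvC hvU => ?_⟩
  by_contra hvu
  obtain ⟨C₁, hC₁, hvC₁⟩ := key (U.erase u) (erase_subset u U) v (mem_erase.2 ⟨hvu, hvU⟩)
  obtain ⟨h1, h2⟩ := mem_cyc.1 hC₁
  have h3 : C₁ ∈ cyc G (A ∪ U) :=
    mem_cyc.2 ⟨h1.trans (union_subset_union_right (erase_subset u U)), h2⟩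
  have h5 := cyc_disj hW hC h3 hvC hvC₁
  rw [h5] at huC
  rcases mem_union.1 (h1 huC) with h6 | h6
  · exact (hU u hu).1 h6
  · exact notMem_erase u U h6

/-- Partial transversals: unmarked vertices of odd cycles of `A`, at most one from each. -/
def PT (G : SimpleGraph V) (A K T : Finset V) : Prop :=
  (∀ t ∈ T, t ∉ K ∧ ∃ C ∈ cyc G A, t ∈ C) ∧
    ∀ C ∈ cyc G A, ∀ a ∈ C, ∀ b ∈ C, a ∈ T → b ∈ T → a = b

omit [Fintype V] in
private theorem extB_dg_union {v : V} {A B : Finset V} (h : Disjoint A B) :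
    dg G v (A ∪ B) = dg G v A + dg G v B := by
  unfold dg
  have h1 : nb G v (A ∪ B) = nb G v A ∪ nb G v B := by
    ext w
    simp only [mem_nb, mem_union]
    tauto
  rw [h1, card_union_of_disjoint]
  rw [disjoint_left] at h ⊢
  intro w hw hw'
  exact h (mem_nb.1 hw).1 (mem_nb.1 hw').1

omit [DecidableEq V] [Fintype V] in
private theorem extB_dg_mono {v : V} {A B : Finset V} (h : A ⊆ B) : dg G v A ≤ dg G v B := by
  unfold dg
  refine card_le_card fun w hw => ?_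
  rw [mem_nb] at hw ⊢
  exact ⟨h hw.1, hw.2⟩

/-- no further step is possible: the main bound -/
private theorem extB_clause (hT : NoTri G) (hΔ : ∀ v, dg G v univ ≤ 6) {A K : Finset V}
    (hFA : Fam G A) (h3 : ∀ u, u ∉ A → dg G u Aᶜ ≤ 3)
    (hfin : ∀ T U W'', Disjoint T K → Step G A T U W'' →
      ¬ (Fam G W'' ∧ ∀ u, u ∉ W'' → dg G u W''ᶜ ≤ 3)) :
    ∀ u, u ∉ A → ∀ T, PT G A K T → dg G u Aᶜ + dg G u T ≤ 3 := by
  classical
  by_contra hcon
  push Not at hcon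
  obtain ⟨u₀, hu₀, T₀, hPT₀, hlt₀⟩ := hcon
  obtain ⟨T, hTm, hTmin⟩ := exists_min_image
    (univ.filter fun T => PT G A K T ∧ ∃ u, u ∉ A ∧ 3 < dg G u Aᶜ + dg G u T)
    (fun T => T.card) ⟨T₀, mem_filter.2 ⟨mem_univ _, hPT₀, u₀, hu₀, hlt₀⟩⟩
  obtain ⟨-, hPT, u, hu, hlt⟩ := mem_filter.1 hTm
  have hTA : T ⊆ A := by
    intro t ht
    obtain ⟨C, hC, htC⟩ := (hPT.1 t ht).2
    exact (mem_cyc.1 hC).1 htC
  have hFS : Fam G (A \ T) := fam_sdiff hΔ hFA (fun t ht => (hPT.1 t ht).2) hPT.2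
  have hdis : Disjoint Aᶜ T := by
    rw [disjoint_left]
    exact fun w hw hw' => (mem_compl.1 hw) (hTA hw')
  have hcomp : (A \ T)ᶜ = Aᶜ ∪ T := by
    ext w
    simp only [mem_compl, mem_sdiff, mem_union]
    tauto
  have hsum : ∀ v, dg G v (A \ T)ᶜ = dg G v Aᶜ + dg G v T := by
    intro v
    rw [hcomp, extB_dg_union hdis]
  have hle : ∀ v, v ∉ A \ T → dg G v (A \ T)ᶜ ≤ 4 := fun v hv => (hFS.1.out_side hΔ hv).1
  obtain ⟨U, hUdef⟩ : ∃ U : Finset V, U = univ.filter fun v =>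
      v ∉ A ∧ dg G v Aᶜ + dg G v T = 4 := ⟨_, rfl⟩
  have hmemU : ∀ v, v ∈ U ↔ v ∉ A ∧ dg G v Aᶜ + dg G v T = 4 := by
    intro v
    rw [hUdef, mem_filter]
    exact ⟨fun h => h.2, fun h => ⟨mem_univ _, h⟩⟩
  have hnot : ∀ v, v ∉ A → v ∉ A \ T := fun v hv h => hv (mem_sdiff.1 h).1
  have huU : u ∈ U := by
    rw [hmemU]
    refine ⟨hu, ?_⟩
    have h5 := hle u (hnot u hu)
    rw [hsum] at h5
    omega
  have hTne : T.Nonempty := by
    rcases T.eq_empty_or_nonempty with h | h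
    · exfalso
      have h5 : dg G u T = 0 := by
        rw [h]
        unfold dg
        rw [card_eq_zero, eq_empty_iff_forall_notMem]
        intro w hw
        exact absurd (mem_nb.1 hw).1 (notMem_empty w)
      have h6 := h3 u hu
      omega
    · exact h
  have hadj : ∀ v ∈ U, ∀ t ∈ T, G.Adj v t := by
    intro v hv t ht
    by_contra hvt
    have h5 : dg G v (T.erase t) = dg G v T := by
      unfold dg
      congr 1
      ext w
      simp only [mem_nb, mem_erase]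
      constructor
      · rintro ⟨⟨_, h6⟩, h7⟩
        exact ⟨h6, h7⟩
      · rintro ⟨h6, h7⟩
        refine ⟨⟨?_, h6⟩, h7⟩
        rintro rfl
        exact hvt h7
    have h6 : PT G A K (T.erase t) := ⟨fun s hs => hPT.1 s (mem_of_mem_erase hs),
      fun C hC a ha b hb haT hbT => hPT.2 C hC a ha b hb (mem_of_mem_erase haT)
        (mem_of_mem_erase hbT)⟩
    have h7 := (hmemU v).1 hv
    have h8 := hTmin (T.erase t) (mem_filter.2 ⟨mem_univ _, h6, v, h7.1, by omega⟩)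
    have h9 := card_erase_add_one ht
    omega
  have hind : ∀ r ∈ U, ∀ s ∈ U, ¬ G.Adj r s := by
    intro r hr s hs
    obtain ⟨t, ht⟩ := hTne
    exact hT r t s (hadj r hr t ht) (hadj s hs t ht).symm
  obtain ⟨hFW, hcyc⟩ := fam_union hΔ hFS (U := U) (fun v hv => ⟨hnot v ((hmemU v).1 hv).1, by
    rw [hsum]
    exact ((hmemU v).1 hv).2⟩) hind
  refine hfin T U ((A \ T) ∪ U) ?_ ?_ ⟨hFW, ?_⟩
  · rw [disjoint_left]
    exact fun t ht => (hPT.1 t ht).1
  · refine ⟨fun t ht => (hPT.1 t ht).2, hPT.2, ⟨u, huU⟩, ?_, ?_, rfl, hcyc⟩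
    · rw [disjoint_left]
      exact fun v hv => ((hmemU v).1 hv).1
    · exact fun t ht => ⟨u, huU, (hadj u huU t ht).symm⟩
  · intro v hv
    rw [mem_union, not_or] at hv
    have h5 := hle v hv.1
    by_cases hvT : v ∈ T
    · have h6 : Disjoint ((A \ T) ∪ U)ᶜ U := by
        rw [disjoint_left]
        exact fun w hw hw' => (mem_compl.1 hw) (mem_union_right _ hw')
      have h7 : (A \ T)ᶜ = ((A \ T) ∪ U)ᶜ ∪ U := by
        ext w
        simp only [mem_compl, mem_union, mem_sdiff]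
        constructor
        · intro h8
          by_cases hwU : w ∈ U
          · exact Or.inr hwU
          · exact Or.inl fun h9 => h9.elim h8 hwU
        · rintro (h8 | h8)
          · exact fun h9 => h8 (Or.inl h9)
          · exact fun h9 => ((hmemU w).1 h8).1 h9.1
      rw [h7, extB_dg_union h6] at h5
      have h8 : 1 ≤ dg G v U := by
        unfold dg
        exact card_pos.2 ⟨u, mem_nb.2 ⟨huU, (hadj u huU v hvT).symm⟩⟩
      omega
    · have hvA : v ∉ A := fun h => hv.1 (mem_sdiff.2 ⟨h, hvT⟩)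
      have h6 : dg G v Aᶜ + dg G v T ≠ 4 := fun h => hv.2 ((hmemU v).2 ⟨hvA, h⟩)
      have h7 : dg G v ((A \ T) ∪ U)ᶜ ≤ dg G v (A \ T)ᶜ := by
        apply extB_dg_mono
        intro w hw
        rw [mem_compl] at hw ⊢
        exact fun h => hw (mem_union_left _ h)
      rw [hsum] at h5 h7
      omega

/-- A bipartition in which no further step is possible. -/
theorem exists_part (hT : NoTri G) (h4 : NoC4 G) (hΔ : ∀ v, dg G v univ ≤ 6) :
    ∃ A K : Finset V, (∀ v ∈ A, dg G v A ≤ 2) ∧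
      (∀ C ∈ cyc G A, ∀ a ∈ C, ∀ b ∈ C, a ∈ K → b ∈ K → a = b) ∧
      (∀ v ∈ A, dg G v A = 2 → dg G v Aᶜ ≤ 4) ∧
      (∀ u, u ∉ A → ∀ T, PT G A K T → dg G u Aᶜ + dg G u T ≤ 3) ∧
      (∀ u, u ∉ A → ∀ C ∈ cyc G A, dg G u Aᶜ + dg G u C ≤ 4) := by
  classical
  obtain ⟨F, hFdef⟩ : ∃ F : Finset V → Prop, F = fun A => Fam G A ∧
      ∀ u, u ∉ A → dg G u Aᶜ ≤ 3 := ⟨_, rfl⟩
  have hF : ∀ W, F W → ∀ v ∈ W, dg G v W ≤ 2 := by
    intro W hW v hv
    rw [hFdef] at hW
    exact (hW.1.1.in_side hΔ hv).1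
  obtain ⟨A₀, hA₀, hmax⟩ := exists_fam G
  have hF₀ : F A₀ := by
    rw [hFdef]
    refine ⟨hA₀, fun u hu => ?_⟩
    by_contra h
    have h1 := (hA₀.1.out_side hΔ hu).1
    have h2 := hmax _ (fam_insert hΔ hA₀ hu (by omega)).1
    rw [card_insert_of_notMem hu] at h2
    omega
  have hM₀ : Marked G A₀ ∅ := ⟨empty_subset _, by simp, by simp⟩
  obtain ⟨A, K, hFA, hM, -, hfin⟩ := exists_final h4 F hF hF₀ hM₀
  have hW := hF A hFA
  rw [hFdef] at hFA
  refine ⟨A, K, hW, hM.2.1, ?_, ?_, ?_⟩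
  · intro v hv h2
    exact ((hFA.1.1.in_side hΔ hv).2 h2).1.le
  · refine extB_clause hT hΔ hFA.1 hFA.2 ?_
    intro T U W'' h1 h2 h3
    refine hfin T U W'' h1 h2 ?_
    rw [hFdef]
    exact h3
  · intro u hu C hC
    have hCA := (mem_cyc.1 hC).1
    have h1 := hFA.1.1.dg_add_le hΔ (R := nb G u C) (fun r hr => hCA (mem_nb.1 hr).1)
      (fun r hr s hs => hT r u s (mem_nb.1 hr).2.symm (mem_nb.1 hs).2)
      (fun r hr => (dg_eq_two hW hC (mem_nb.1 hr).1).2.1) hu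
    have h2 : dg G u (nb G u C) = dg G u C := by
      unfold dg
      congr 1
      ext w
      simp only [mem_nb]
      tauto
    rwa [h2] at h1

end Pool.Agent.Lib.MP_7aba48_co_G5
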