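import Pool.Agent.Lib.MP_7aba48_co_G5.Select

/-!
# Graphs of maximum degree at most six without cycles of length three or four are 5-colourable
-/

namespace Pool.Agent.Lib.MP_7aba48_co_G5

open Finset

universe u

variable {V : Type u} [DecidableEq V] {G : SimpleGraph V}

private lemma dg_pos_of_adj {v t : V} {T : Finset V} (ht : t ∈ T) (h : G.Adj v t) :
    1 ≤ dg G v T := by
  unfold dg
  exact Finset.card_pos.mpr ⟨t, mem_nb.mpr ⟨ht, h⟩⟩

/-- The colouring from its three parts. -/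
private lemma colorable_of_parts [Fintype V] {A T : Finset V} (hTA : T ⊆ A)
    (hTi : ∀ a ∈ T, ∀ b ∈ T, ¬ G.Adj a b) {c : V → Bool}
    (hc : ∀ v ∈ A \ T, ∀ w ∈ A \ T, G.Adj v w → c v ≠ c w) {f : V → Fin 3}
    (hf0 : ∀ v, v ∉ A → (∃ t ∈ T, G.Adj v t) → f v ≠ 0)
    (hf : ∀ v, v ∉ A → ∀ w, w ∉ A → G.Adj v w → f v ≠ f w) : G.Colorable 5 := by
  classical
  refine ⟨SimpleGraph.Coloring.mk (fun v => if v ∈ T then (0 : Fin 5) else
    if v ∈ A then (if c v then 3 else 4) else Fin.castLE (by norm_num) (f v)) ?_⟩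
  have key : ∀ x : Fin 3, (Fin.castLE (by norm_num : 3 ≤ 5) x : Fin 5) ≠ 3 ∧
      (Fin.castLE (by norm_num : 3 ≤ 5) x : Fin 5) ≠ 4 ∧
      (x ≠ 0 → (Fin.castLE (by norm_num : 3 ≤ 5) x : Fin 5) ≠ 0) := by decide
  have main : ∀ v w : V, G.Adj v w → v ∈ A → 
      (if v ∈ T then (0 : Fin 5) else
        if v ∈ A then (if c v then 3 else 4) else Fin.castLE (by norm_num) (f v)) ≠
      (if w ∈ T then (0 : Fin 5) else
        if w ∈ A then (if c w then 3 else 4) else Fin.castLE (by norm_num) (f w)) := by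
    intro v w hvw hv
    by_cases hvT : v ∈ T
    · by_cases hwT : w ∈ T
      · exact absurd hvw (hTi v hvT w hwT)
      · by_cases hwA : w ∈ A
        · simp only [hvT, hwT, hwA, if_true, if_false]
          split_ifs <;> decide
        · simp only [hvT, hwT, hwA, if_true, if_false]
          exact fun h => (key (f w)).2.2 (hf0 w hwA ⟨v, hvT, hvw.symm⟩) h.symm
    · by_cases hwT : w ∈ T
      · simp only [hvT, hwT, hv, if_true, if_false]
        split_ifs <;> decide
      · by_cases hwA : w ∈ A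
        · have h := hc v (by simp [hv, hvT]) w (by simp [hwA, hwT]) hvw
          simp only [hvT, hwT, hv, hwA, if_true, if_false]
          cases hcv : c v <;> cases hcw : c w
          · rw [hcv, hcw] at h; exact absurd rfl h
          · simp
          · simp
          · rw [hcv, hcw] at h; exact absurd rfl h
        · simp only [hvT, hwT, hv, hwA, if_true, if_false]
          split_ifs
          · exact fun h => (key (f w)).1 h.symm
          · exact fun h => (key (f w)).2.1 h.symm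
  intro v w hvw
  by_cases hv : v ∈ A
  · exact main v w hvw hv
  · by_cases hw : w ∈ A
    · exact (main w v hvw.symm hw).symm
    · have hvT : v ∉ T := fun h => hv (hTA h)
      have hwT : w ∉ T := fun h => hw (hTA h)
      simp only [hvT, hwT, hv, hw, if_false]
      intro h
      exact hf v hv w hw hvw (Fin.castLE_injective _ h)

theorem colorable_five [Fintype V] (hT : NoTri G) (h4 : NoC4 G)
    (hΔ : ∀ v, dg G v univ ≤ 6) : G.Colorable 5 := by
  classical
  obtain ⟨A, K, hA, hK, hA4, hPT, hC4⟩ := exists_part hT h4 hΔ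
  -- the configurations
  let pick : Finset V → Finset V := fun D =>
    if h : ∃ U ⊆ D, (∀ v ∈ U, dg G v Aᶜ = 2) ∧ Conf G Aᶜ U then h.choose else ∅
  let 𝒟 : Finset (Finset V) := (Aᶜ).powerset.filter (fun D => Comp G Aᶜ D ∧
    ∃ U ⊆ D, (∀ v ∈ U, dg G v Aᶜ = 2) ∧ Conf G Aᶜ U)
  have hpick : ∀ D ∈ 𝒟, pick D ⊆ D ∧ (∀ v ∈ pick D, dg G v Aᶜ = 2) ∧ Conf G Aᶜ (pick D) := by
    intro D hD
    have h := (Finset.mem_filter.mp hD).2.2
    have : pick D = h.choose := dif_pos h
    rw [this]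
    exact h.choose_spec
  obtain ⟨T, hTPT, hTfull, hTE⟩ := exists_select hT h4 hA hK hA4 hPT hC4 (𝒟.image pick)
    (by
      intro U hU
      obtain ⟨D, hD, rfl⟩ := Finset.mem_image.mp hU
      exact ⟨(hpick D hD).2.2, (hpick D hD).2.1⟩)
    (by
      intro U hU U' hU' v hv hv'
      obtain ⟨D, hD, rfl⟩ := Finset.mem_image.mp hU
      obtain ⟨D', hD', rfl⟩ := Finset.mem_image.mp hU'
      have h1 := (Finset.mem_filter.mp hD).2.1
      have h2 := (Finset.mem_filter.mp hD').2.1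
      rw [Comp.disj h1 h2 ((hpick D hD).1 hv) ((hpick D' hD').1 hv')])
  have hTA : T ⊆ A := by
    intro t ht
    obtain ⟨C, hC, htC⟩ := (hTPT.1 t ht).2
    exact (mem_cyc.mp hC).1 htC
  have hTi : ∀ a ∈ T, ∀ b ∈ T, ¬ G.Adj a b := by
    intro a ha b hb hab
    obtain ⟨C, hC, haC⟩ := (hTPT.1 a ha).2
    have hbC := (dg_eq_two hA hC haC).2.2 b (hTA hb) hab
    have := hTPT.2 C hC a haC b hbC ha hb
    subst this
    exact G.loopless.irrefl a hab
  -- the first side
  have hcol : Col2 G (A \ T) := by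
    by_contra h
    obtain ⟨C, hC⟩ := exists_cyc h
    have hCA : C ∈ cyc G A := mem_cyc.mpr
      ⟨(mem_cyc.mp hC).1.trans Finset.sdiff_subset, (mem_cyc.mp hC).2⟩
    obtain ⟨t, htC, htT⟩ := hTfull C hCA
    exact (Finset.mem_sdiff.mp ((mem_cyc.mp hC).1 htC)).2 htT
  obtain ⟨c, hc⟩ := hcol
  -- the second side
  let N : Finset V := (Aᶜ).filter (fun v => ∃ t ∈ T, G.Adj v t)
  have hNB : N ⊆ Aᶜ := Finset.filter_subset _ _
  have hfex : ∃ f : V → Fin 3, (∀ v ∈ N, f v ≠ 0) ∧
      ∀ v ∈ Aᶜ, ∀ w ∈ Aᶜ, G.Adj v w → f v ≠ f w := by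
    by_contra hbad
    obtain ⟨D, hD, hDN, U, hUD, hU2, hUc⟩ := exists_conf hT h4 hNB
      (by
        intro v hv
        have := hPT v (Finset.mem_compl.mp hv) ∅ ⟨by simp, by simp⟩
        omega)
      (by
        intro v hv
        obtain ⟨hv1, t, ht, hvt⟩ := Finset.mem_filter.mp hv
        have := hPT v (Finset.mem_compl.mp hv1) T hTPT
        have := dg_pos_of_adj ht hvt
        omega) hbad
    have hD𝒟 : D ∈ 𝒟 := Finset.mem_filter.mpr
      ⟨Finset.mem_powerset.mpr hD.1, hD, U, hUD, hU2, hUc⟩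
    obtain ⟨u, hu, hut⟩ := hTE (pick D) (Finset.mem_image_of_mem _ hD𝒟)
    obtain ⟨h1, h2, h3⟩ := hpick D hD𝒟
    have huN := hDN u (h1 hu) (h2 u hu)
    obtain ⟨-, t, ht, hadj⟩ := Finset.mem_filter.mp huN
    exact hut t ht hadj
  obtain ⟨f, hf0, hf⟩ := hfex
  refine colorable_of_parts hTA hTi hc (f := f) ?_ ?_
  · intro v hv ht
    exact hf0 v (Finset.mem_filter.mpr ⟨Finset.mem_compl.mpr hv, ht⟩)
  · intro v hv w hw hvw
    exact hf v (Finset.mem_compl.mpr hv) w (Finset.mem_compl.mpr hw) hvw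

end Pool.Agent.Lib.MP_7aba48_co_G5
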