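import Pool.Agent.Lib.MP_7aba48_co_G5.Defs

/-!
# Minimal non-2-colourable sets: connectivity and disjointness
-/

namespace Pool.Agent.Lib.MP_7aba48_co_G5

open Finset

universe u

variable {V : Type u} [DecidableEq V] {G : SimpleGraph V}

private theorem xor_cancel {a b c : Bool} (h : xor a c = xor b c) : a = b := by
  revert h
  cases a <;> cases b <;> cases c <;> simp

/-- Every vertex of a minimal non-2-colourable set has two neighbours in it. -/
theorem two_le_dg {C : Finset V} (hC : OddC G C) {v : V} (hv : v ∈ C) : 2 ≤ dg G v C := by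
  classical
  by_contra hlt
  have hcard : (nb G v C).card ≤ 1 := by
    unfold dg at hlt
    omega
  obtain ⟨c, hc⟩ := hC.2 (C.erase v) (Finset.erase_ssubset hv)
  obtain ⟨b, hb⟩ : ∃ b : Bool, ∀ w ∈ nb G v C, b ≠ c w := by
    rcases (nb G v C).eq_empty_or_nonempty with h | ⟨w, hw⟩
    · exact ⟨true, by simp [h]⟩
    · refine ⟨!(c w), fun w' hw' => ?_⟩
      rw [Finset.card_le_one.1 hcard w' hw' w hw]
      simp
  apply hC.1
  refine ⟨fun x => if x = v then b else c x, ?_⟩
  intro x hx y hy hxy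
  by_cases hxv : x = v
  · subst hxv
    have hyx : y ≠ x := fun h => G.loopless.irrefl x (h ▸ hxy)
    simp only [if_true, if_neg hyx]
    exact hb y (mem_nb.2 ⟨hy, hxy⟩)
  · by_cases hyv : y = v
    · subst hyv
      simp only [if_true, if_neg hxv]
      exact (hb x (mem_nb.2 ⟨hx, hxy.symm⟩)).symm
    · simp only [if_neg hxv, if_neg hyv]
      exact hc x (Finset.mem_erase.2 ⟨hxv, hx⟩) y (Finset.mem_erase.2 ⟨hyv, hy⟩) hxy

/-- In a set of maximum degree two, minimal non-2-colourable subsets are 2-regular and closed. -/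
theorem dg_eq_two {W C : Finset V} (hW : ∀ v ∈ W, dg G v W ≤ 2) (hC : C ∈ cyc G W)
    {v : V} (hv : v ∈ C) :
    dg G v C = 2 ∧ dg G v W = 2 ∧ ∀ y ∈ W, G.Adj v y → y ∈ C := by
  obtain ⟨hCW, hodd⟩ := mem_cyc.1 hC
  have h1 : 2 ≤ dg G v C := two_le_dg hodd hv
  have h2 : dg G v W ≤ 2 := hW v (hCW hv)
  have hsub : nb G v C ⊆ nb G v W := by
    intro w hw
    rw [mem_nb] at hw ⊢
    exact ⟨hCW hw.1, hw.2⟩
  have h3 : dg G v C ≤ dg G v W := Finset.card_le_card hsub
  refine ⟨by omega, by omega, ?_⟩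
  intro y hy hvy
  have heq : nb G v C = nb G v W := by
    apply Finset.eq_of_subset_of_card_le hsub
    show dg G v W ≤ dg G v C
    omega
  have h4 : y ∈ nb G v W := mem_nb.2 ⟨hy, hvy⟩
  rw [← heq] at h4
  exact (mem_nb.1 h4).1

/-- A nonempty subset closed under adjacency is everything. -/
theorem eq_of_closed {C X : Finset V} (hC : OddC G C) (hX : X ⊆ C) (hne : X.Nonempty)
    (hcl : ∀ x ∈ X, ∀ y ∈ C, G.Adj x y → y ∈ X) : X = C := by
  classical
  by_contra hXC
  have h1 : X ⊂ C := Finset.ssubset_iff_subset_ne.2 ⟨hX, hXC⟩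
  have h2 : C \ X ⊂ C := by
    refine Finset.ssubset_iff_subset_ne.2 ⟨Finset.sdiff_subset, fun h => ?_⟩
    obtain ⟨x, hx⟩ := hne
    have h3 : x ∈ C \ X := by
      rw [h]
      exact hX hx
    exact (Finset.mem_sdiff.1 h3).2 hx
  obtain ⟨c1, hc1⟩ := hC.2 X h1
  obtain ⟨c2, hc2⟩ := hC.2 (C \ X) h2
  apply hC.1
  refine ⟨fun x => if x ∈ X then c1 x else c2 x, ?_⟩
  intro x hx y hy hxy
  by_cases hxX : x ∈ X
  · have hyX : y ∈ X := hcl x hxX y hy hxy
    simp only [if_pos hxX, if_pos hyX]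
    exact hc1 x hxX y hyX hxy
  · have hyX : y ∉ X := fun h => hxX (hcl y h x hx hxy.symm)
    simp only [if_neg hxX, if_neg hyX]
    exact hc2 x (Finset.mem_sdiff.2 ⟨hx, hxX⟩) y (Finset.mem_sdiff.2 ⟨hy, hyX⟩) hxy

/-- The same after deleting one vertex. -/
theorem erase_eq_of_closed {C X : Finset V} {t : V} (hC : OddC G C) (ht : t ∈ C)
    (hX : X ⊆ C.erase t) (hne : X.Nonempty)
    (hcl : ∀ x ∈ X, ∀ y ∈ C.erase t, G.Adj x y → y ∈ X) : X = C.erase t := by
  classical
  by_contra hXC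
  have htX : t ∉ X := fun h => (Finset.mem_erase.1 (hX h)).1 rfl
  have hXC' : X ⊂ C.erase t := Finset.ssubset_iff_subset_ne.2 ⟨hX, hXC⟩
  obtain ⟨y0, hy0, hy0X⟩ := Finset.exists_of_ssubset hXC'
  have h1 : insert t X ⊂ C := by
    refine (Finset.ssubset_iff_of_subset ?_).2 ⟨y0, (Finset.mem_erase.1 hy0).2, ?_⟩
    · intro x hx
      rcases Finset.mem_insert.1 hx with rfl | hx
      · exact ht
      · exact (Finset.mem_erase.1 (hX hx)).2
    · rw [Finset.mem_insert, not_or]
      exact ⟨(Finset.mem_erase.1 hy0).1, hy0X⟩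
  have h2 : C \ X ⊂ C := by
    refine Finset.ssubset_iff_subset_ne.2 ⟨Finset.sdiff_subset, fun h => ?_⟩
    obtain ⟨x, hx⟩ := hne
    have h3 : x ∈ C \ X := by
      rw [h]
      exact (Finset.mem_erase.1 (hX hx)).2
    exact (Finset.mem_sdiff.1 h3).2 hx
  obtain ⟨c1, hc1⟩ := hC.2 _ h1
  obtain ⟨c2, hc2⟩ := hC.2 _ h2
  have key1 : ∀ x ∈ X, ∀ y ∈ insert t X, G.Adj x y →
      xor (c1 x) (c1 t) ≠ xor (c1 y) (c1 t) := by
    intro x hx y hy hxy h
    exact hc1 x (Finset.mem_insert_of_mem hx) y hy hxy (xor_cancel h)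
  apply hC.1
  refine ⟨fun x => if x ∈ X then xor (c1 x) (c1 t) else xor (c2 x) (c2 t), ?_⟩
  have mixed : ∀ x ∈ X, ∀ y ∈ C, y ∉ X → G.Adj x y →
      xor (c1 x) (c1 t) ≠ xor (c2 y) (c2 t) := by
    intro x hx y hy hyX hxy
    by_cases hyt : y = t
    · subst hyt
      have h3 := key1 x hx y (Finset.mem_insert_self _ _) hxy
      rw [Bool.xor_self] at h3 ⊢
      exact h3
    · exact absurd (hcl x hx y (Finset.mem_erase.2 ⟨hyt, hy⟩) hxy) hyX
  intro x hx y hy hxy
  by_cases hxX : x ∈ X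
  · by_cases hyX : y ∈ X
    · simp only [if_pos hxX, if_pos hyX]
      exact key1 x hxX y (Finset.mem_insert_of_mem hyX) hxy
    · simp only [if_pos hxX, if_neg hyX]
      exact mixed x hxX y hy hyX hxy
  · by_cases hyX : y ∈ X
    · simp only [if_neg hxX, if_pos hyX]
      exact (mixed y hyX x hx hxX hxy.symm).symm
    · simp only [if_neg hxX, if_neg hyX]
      intro h
      exact hc2 x (Finset.mem_sdiff.2 ⟨hx, hxX⟩) y (Finset.mem_sdiff.2 ⟨hy, hyX⟩) hxy
        (xor_cancel h)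

/-- In a set of maximum degree two the minimal non-2-colourable subsets are disjoint. -/
theorem cyc_disj {W C C' : Finset V} (hW : ∀ v ∈ W, dg G v W ≤ 2) (hC : C ∈ cyc G W)
    (hC' : C' ∈ cyc G W) {v : V} (hv : v ∈ C) (hv' : v ∈ C') : C = C' := by
  classical
  obtain ⟨hCW, hodd⟩ := mem_cyc.1 hC
  obtain ⟨hCW', hodd'⟩ := mem_cyc.1 hC'
  have h1 : C ∩ C' = C := by
    refine eq_of_closed hodd Finset.inter_subset_left ⟨v, Finset.mem_inter.2 ⟨hv, hv'⟩⟩ ?_
    intro x hx y hy hxy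
    rw [Finset.mem_inter] at hx ⊢
    exact ⟨hy, (dg_eq_two hW hC' hx.2).2.2 y (hCW hy) hxy⟩
  have h2 : C ∩ C' = C' := by
    refine eq_of_closed hodd' Finset.inter_subset_right ⟨v, Finset.mem_inter.2 ⟨hv, hv'⟩⟩ ?_
    intro x hx y hy hxy
    rw [Finset.mem_inter] at hx ⊢
    exact ⟨(dg_eq_two hW hC hx.1).2.2 y (hCW' hy) hxy, hy⟩
  rw [← h1, h2]

/-- A set which is not 2-colourable contains a minimal one. -/
theorem exists_cyc {W : Finset V} (h : ¬ Col2 G W) : ∃ C, C ∈ cyc G W := by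
  classical
  induction W using Finset.strongInduction with
  | H W ih =>
    by_cases hall : ∀ D, D ⊂ W → Col2 G D
    · exact ⟨W, mem_cyc.2 ⟨Finset.Subset.refl _, h, hall⟩⟩
    · push Not at hall
      obtain ⟨D, hD, hcol⟩ := hall
      obtain ⟨C, hC⟩ := ih D hD hcol
      rw [mem_cyc] at hC
      exact ⟨C, mem_cyc.2 ⟨hC.1.trans hD.subset, hC.2⟩⟩

/-- A minimal non-2-colourable set is nonempty. -/
theorem OddC.nonempty {C : Finset V} (hC : OddC G C) : C.Nonempty := by
  rcases C.eq_empty_or_nonempty with h | h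
  · exact absurd ⟨fun _ => true, by simp [h]⟩ hC.1
  · exact h

/-- Deleting a vertex of an odd cycle destroys exactly one odd cycle. -/
theorem cyc_erase_card {W C : Finset V} (hW : ∀ v ∈ W, dg G v W ≤ 2) (hC : C ∈ cyc G W)
    {v : V} (hv : v ∈ C) : (cyc G (W.erase v)).card + 1 = (cyc G W).card := by
  classical
  have h : cyc G (W.erase v) = (cyc G W).erase C := by
    ext D
    rw [Finset.mem_erase, mem_cyc, mem_cyc]
    constructor
    · rintro ⟨hD, hodd⟩
      refine ⟨?_, hD.trans (Finset.erase_subset _ _), hodd⟩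
      rintro rfl
      exact (Finset.mem_erase.1 (hD hv)).1 rfl
    · rintro ⟨hne, hD, hodd⟩
      refine ⟨fun x hx => Finset.mem_erase.2 ⟨?_, hD hx⟩, hodd⟩
      rintro rfl
      exact hne (cyc_disj hW (mem_cyc.2 ⟨hD, hodd⟩) hC hx hv)
  rw [h]
  exact Finset.card_erase_add_one hC

/-- Adding a vertex creates at most one odd cycle. -/
theorem cyc_insert_card {W : Finset V} {w : V} (hw : w ∉ W)
    (hW : ∀ v ∈ insert w W, dg G v (insert w W) ≤ 2) :
    (cyc G (insert w W)).card ≤ (cyc G W).card + 1 := by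
  classical
  have h1 : ((cyc G (insert w W)).filter (fun C => w ∈ C)).card ≤ 1 := by
    rw [Finset.card_le_one]
    intro C hC C' hC'
    rw [Finset.mem_filter] at hC hC'
    exact cyc_disj hW hC.1 hC'.1 hC.2 hC'.2
  have h2 : ((cyc G (insert w W)).filter (fun C => ¬ w ∈ C)).card ≤ (cyc G W).card := by
    apply Finset.card_le_card
    intro C hC
    rw [Finset.mem_filter, mem_cyc] at hC
    rw [mem_cyc]
    refine ⟨fun x hx => ?_, hC.1.2⟩
    rcases Finset.mem_insert.1 (hC.1.1 hx) with rfl | h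
    · exact absurd hx hC.2
    · exact h
  have h3 := Finset.card_filter_add_card_filter_not (s := cyc G (insert w W)) (fun C => w ∈ C)
  omega

/-- If adding a vertex does not create an odd cycle through it, the number does not grow. -/
theorem cyc_insert_card_le {W : Finset V} {w : V} (hw : w ∉ W)
    (h : ∀ C ∈ cyc G (insert w W), w ∉ C) :
    (cyc G (insert w W)).card ≤ (cyc G W).card := by
  classical
  apply Finset.card_le_card
  intro C hC
  have hwC := h C hC
  rw [mem_cyc] at hC ⊢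
  refine ⟨fun x hx => ?_, hC.2⟩
  rcases Finset.mem_insert.1 (hC.1 hx) with rfl | h'
  · exact absurd hx hwC
  · exact h'

end Pool.Agent.Lib.MP_7aba48_co_G5
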