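import Pool.Agent.Lib.MP_7aba48_co_G5.OddA

/-!
# Two-regular minimal non-2-colourable sets in graphs without triangles and 4-cycles
-/

namespace Pool.Agent.Lib.MP_7aba48_co_G5

open Finset

universe u

variable {V : Type u} [DecidableEq V] {G : SimpleGraph V}

/-- the two neighbours of a vertex -/
private theorem ob_two {C : Finset V} {v : V} (h : dg G v C = 2) :
    ∃ a b, a ∈ C ∧ b ∈ C ∧ a ≠ b ∧ G.Adj v a ∧ G.Adj v b ∧
      ∀ y ∈ C, G.Adj v y → y = a ∨ y = b := by
  unfold dg at h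
  obtain ⟨a, b, hab, h3⟩ := Finset.card_eq_two.1 h
  have ha : a ∈ nb G v C := by rw [h3]; simp
  have hb : b ∈ nb G v C := by rw [h3]; simp
  rw [mem_nb] at ha hb
  refine ⟨a, b, ha.1, hb.1, hab, ha.2, hb.2, fun y hy hvy => ?_⟩
  have hy2 : y ∈ nb G v C := mem_nb.2 ⟨hy, hvy⟩
  rw [h3] at hy2
  simpa using hy2

/-- the second neighbour of a vertex -/
private theorem ob_other {C : Finset V} {v a : V} (h : dg G v C = 2) (ha : a ∈ C)
    (hva : G.Adj v a) : ∃ b ∈ C, b ≠ a ∧ G.Adj v b ∧ ∀ y ∈ C, G.Adj v y → y = a ∨ y = b := by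
  obtain ⟨x, y, hx, hy, hxy, hvx, hvy, hall⟩ := ob_two h
  rcases hall a ha hva with rfl | rfl
  · exact ⟨y, hy, hxy.symm, hvy, hall⟩
  · exact ⟨x, hx, hxy, hvx, fun z hz hvz => (hall z hz hvz).symm⟩

/-- the five vertices around a vertex -/
private theorem ob_pent (hT : NoTri G) (h4 : NoC4 G) {C : Finset V}
    (h2 : ∀ v ∈ C, dg G v C = 2) {v : V} (hv : v ∈ C) : ∃ a b a' b', a ∈ C ∧ b ∈ C ∧ a' ∈ C ∧
      b' ∈ C ∧ G.Adj v a ∧ G.Adj v b ∧ G.Adj a a' ∧ G.Adj b b' ∧ a ≠ b ∧ a' ≠ v ∧ a' ≠ b ∧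
      b' ≠ v ∧ b' ≠ a ∧ a' ≠ b' ∧ (∀ y ∈ C, G.Adj v y → y = a ∨ y = b) ∧
      (∀ y ∈ C, G.Adj a y → y = v ∨ y = a') ∧ (∀ y ∈ C, G.Adj b y → y = v ∨ y = b') := by
  obtain ⟨a, b, ha, hb, hab, hva, hvb, hv2⟩ := ob_two (h2 v hv)
  obtain ⟨a', ha', hav, haa, ha2⟩ := ob_other (h2 a ha) hv hva.symm
  obtain ⟨b', hb', hbv, hbb, hb2⟩ := ob_other (h2 b hb) hv hvb.symm
  refine ⟨a, b, a', b', ha, hb, ha', hb', hva, hvb, haa, hbb, hab, hav, ?_, hbv, ?_, ?_, hv2,
    ha2, hb2⟩
  · rintro rfl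
    exact hT _ _ _ hva haa hvb
  · rintro rfl
    exact hT _ _ _ hvb hbb hva
  · rintro rfl
    exact hab (h4 v a' hav.symm a b hva haa.symm hvb hbb.symm)

private theorem ob_card5 {v a b a' b' : V} (h1 : v ≠ a) (h2 : v ≠ b) (h3 : a ≠ a') (h4 : b ≠ b')
    (h5 : a ≠ b) (h6 : a' ≠ v) (h7 : a' ≠ b) (h8 : b' ≠ v) (h9 : b' ≠ a) (h10 : a' ≠ b') :
    ({v, a, b, a', b'} : Finset V).card = 5 := by
  rw [Finset.card_insert_of_notMem, Finset.card_insert_of_notMem, Finset.card_insert_of_notMem,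
    Finset.card_insert_of_notMem, Finset.card_singleton]
  · simpa using h10
  · simp only [Finset.mem_insert, Finset.mem_singleton, not_or]
    exact ⟨h7.symm, h4⟩
  · simp only [Finset.mem_insert, Finset.mem_singleton, not_or]
    exact ⟨h5, h3, h9.symm⟩
  · simp only [Finset.mem_insert, Finset.mem_singleton, not_or]
    exact ⟨h1, h2, h6.symm, h8.symm⟩

/-- Two-regular minimal non-2-colourable sets have an odd number of elements. -/
theorem odd_card {C : Finset V} (hC : OddC G C) (h2 : ∀ v ∈ C, dg G v C = 2) :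
    Odd C.card := by
  classical
  obtain ⟨v, hv⟩ := hC.nonempty
  obtain ⟨a, b, ha, hb, hab, hva, hvb, hv2⟩ := ob_two (h2 v hv)
  obtain ⟨c, hc⟩ := hC.2 (C.erase v) (Finset.erase_ssubset hv)
  have hcab : c a ≠ c b := by
    intro hcab
    apply hC.1
    refine ⟨Function.update c v (!c a), ?_⟩
    have key : ∀ y ∈ C, G.Adj v y → (!c a) ≠ Function.update c v (!c a) y := by
      intro y hy hvy
      rw [Function.update_of_ne hvy.ne']
      rcases hv2 y hy hvy with rfl | rfl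
      · simp
      · rw [hcab]; simp
    intro x hx y hy hxy
    by_cases hxv : x = v
    · subst hxv
      rw [Function.update_self]
      exact key y hy hxy
    · by_cases hyv : y = v
      · subst hyv
        rw [Function.update_self]
        exact (key x hx hxy.symm).symm
      · rw [Function.update_of_ne hxv, Function.update_of_ne hyv]
        exact hc x (Finset.mem_erase.2 ⟨hxv, hx⟩) y (Finset.mem_erase.2 ⟨hyv, hy⟩) hxy
  set D := C.erase v with hD
  let s : V → ℤ := fun x => if c x then 1 else -1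
  have hs : ∀ x ∈ D, ∀ y ∈ D, G.Adj x y → s y = - s x := by
    intro x hx y hy hxy
    have := hc x hx y hy hxy
    simp only [s]
    cases h3 : c x <;> cases h4 : c y <;> simp_all
  have hT : ∑ x ∈ D, ∑ y ∈ D, (if G.Adj x y then s x else 0) = 0 := by
    have h3 : ∑ x ∈ D, ∑ y ∈ D, (if G.Adj x y then s x else 0) =
        ∑ x ∈ D, ∑ y ∈ D, (if G.Adj x y then s y else 0) := by
      rw [Finset.sum_comm]
      refine Finset.sum_congr rfl fun x _ => Finset.sum_congr rfl fun y _ => ?_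
      simp only [G.adj_comm x y]
    have h4 : ∑ x ∈ D, ∑ y ∈ D, (if G.Adj x y then s y else 0) =
        - ∑ x ∈ D, ∑ y ∈ D, (if G.Adj x y then s x else 0) := by
      rw [← Finset.sum_neg_distrib]
      refine Finset.sum_congr rfl fun x hx => ?_
      rw [← Finset.sum_neg_distrib]
      refine Finset.sum_congr rfl fun y hy => ?_
      by_cases h5 : G.Adj x y
      · simp only [h5, if_true]
        exact hs x hx y hy h5
      · simp [h5]
    linarith
  have hdeg : ∀ x ∈ D, ∑ y ∈ D, (if G.Adj x y then s x else 0) =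
      2 * s x - (if G.Adj v x then s x else 0) := by
    intro x hx
    have hxC : x ∈ C := Finset.mem_of_mem_erase hx
    have h3 : ∑ y ∈ C, (if G.Adj x y then s x else 0) = 2 * s x := by
      rw [← Finset.sum_filter, Finset.sum_const, nsmul_eq_mul]
      have h4 : (C.filter fun y => G.Adj x y).card = 2 := by
        rw [← h2 x hxC]
        unfold dg
        have h6 : (C.filter fun y => G.Adj x y) = nb G x C := by
          ext y
          rw [Finset.mem_filter, mem_nb]
        rw [h6]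
      rw [h4]
      norm_num
    have h5 := Finset.add_sum_erase C (fun y => if G.Adj x y then s x else 0) hv
    rw [h3] at h5
    simp only [G.adj_comm x v] at h5
    linarith
  rw [Finset.sum_congr rfl hdeg, Finset.sum_sub_distrib, ← Finset.mul_sum] at hT
  have hab2 : ∑ x ∈ D, (if G.Adj v x then s x else 0) = 0 := by
    rw [← Finset.sum_filter]
    have h3 : D.filter (fun x => G.Adj v x) = {a, b} := by
      ext y
      simp only [Finset.mem_filter, Finset.mem_insert, Finset.mem_singleton, hD,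
        Finset.mem_erase]
      constructor
      · rintro ⟨⟨_, hy⟩, hvy⟩
        exact hv2 y hy hvy
      · rintro (rfl | rfl)
        · exact ⟨⟨hva.ne', ha⟩, hva⟩
        · exact ⟨⟨hvb.ne', hb⟩, hvb⟩
    rw [h3, Finset.sum_pair hab]
    simp only [s]
    cases h3 : c a <;> cases h4 : c b <;> simp_all
  rw [hab2, sub_zero] at hT
  have h0 : ∑ x ∈ D, s x = 0 := by linarith
  have h1 : ∑ x ∈ D, s x = (D.card : ℤ) - 2 * ((D.filter fun x => ¬ c x = true).card : ℤ) := by
    have h3 : ∀ x ∈ D, s x = 1 - 2 * (if ¬ c x = true then 1 else 0) := by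
      intro x _
      simp only [s]
      cases c x <;> simp
    rw [Finset.sum_congr rfl h3, Finset.sum_sub_distrib, ← Finset.mul_sum,
      ← Finset.sum_filter]
    simp
  have hcard : C.card = D.card + 1 := by
    rw [hD, Finset.card_erase_add_one hv]
  refine ⟨(D.filter fun x => ¬ c x = true).card, ?_⟩
  have h5 : (D.card : ℤ) = 2 * ((D.filter fun x => ¬ c x = true).card : ℤ) := by linarith
  have h6 : D.card = 2 * (D.filter fun x => ¬ c x = true).card := by exact_mod_cast h5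
  rw [hcard, ← h6]

/-- They have at least five elements. -/
theorem five_le_card (hT : NoTri G) (h4 : NoC4 G) {C : Finset V} (hC : OddC G C)
    (h2 : ∀ v ∈ C, dg G v C = 2) : 5 ≤ C.card := by
  obtain ⟨v, hv⟩ := hC.nonempty
  obtain ⟨a, b, a', b', ha, hb, ha', hb', hva, hvb, haa, hbb, h5, h6, h7, h8, h9, h10, -⟩ :=
    ob_pent hT h4 h2 hv
  rw [← ob_card5 hva.ne hvb.ne haa.ne hbb.ne h5 h6 h7 h8 h9 h10]
  apply Finset.card_le_card
  intro x hx
  simp only [Finset.mem_insert, Finset.mem_singleton] at hx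
  rcases hx with rfl | rfl | rfl | rfl | rfl <;> assumption

/-- A vertex outside a 5-cycle has at most one neighbour on it. -/
theorem dg_le_one_of_card_five (hT : NoTri G) (h4 : NoC4 G) {C : Finset V} (hC : OddC G C)
    (h2 : ∀ v ∈ C, dg G v C = 2) (h5 : C.card = 5) {y : V} (hy : y ∉ C) : dg G y C ≤ 1 := by
  unfold dg
  rw [Finset.card_le_one]
  intro p hp q hq
  rw [mem_nb] at hp hq
  by_contra hpq
  obtain ⟨a, b, a', b', ha, hb, ha', hb', hva, hvb, haa, hbb, h5', h6, h7, h8, h9, h10, -⟩ :=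
    ob_pent hT h4 h2 hp.1
  have hsub : ({p, a, b, a', b'} : Finset V) ⊆ C := by
    intro x hx
    simp only [Finset.mem_insert, Finset.mem_singleton] at hx
    rcases hx with rfl | rfl | rfl | rfl | rfl
    · exact hp.1
    all_goals assumption
  have heq := Finset.eq_of_subset_of_card_le hsub
    (by rw [h5, ob_card5 hva.ne hvb.ne haa.ne hbb.ne h5' h6 h7 h8 h9 h10])
  have hq1 := hq.1
  rw [← heq] at hq1
  simp only [Finset.mem_insert, Finset.mem_singleton] at hq1
  have hya : y ≠ a := fun h => hy (h ▸ ha)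
  have hyb : y ≠ b := fun h => hy (h ▸ hb)
  rcases hq1 with h | h | h | h | h
  · exact hpq h.symm
  · rw [h] at hq
    exact hT _ _ _ hp.2 hva hq.2
  · rw [h] at hq
    exact hT _ _ _ hp.2 hvb hq.2
  · rw [h] at hq
    exact h6 (h4 y a hya p a' hp.2 hva.symm hq.2 haa).symm
  · rw [h] at hq
    exact h8 (h4 y b hyb p b' hp.2 hvb.symm hq.2 hbb).symm

/-- A path with three vertices `a, b, c`. -/
def Tri3 (G : SimpleGraph V) (P : Finset V) : Prop :=
  ∃ a b c : V, a ≠ b ∧ b ≠ c ∧ a ≠ c ∧ G.Adj a b ∧ G.Adj b c ∧ P = {a, b, c}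

/-- A vertex off a 3-vertex path has at most one neighbour on it. -/
theorem Tri3.dg_le_one (hT : NoTri G) (h4 : NoC4 G) {P : Finset V} (hP : Tri3 G P) {y : V}
    (hy : y ∉ P) : dg G y P ≤ 1 := by
  obtain ⟨a, b, c, hab, hbc, hac, eab, ebc, rfl⟩ := hP
  have hyb : y ≠ b := fun h => hy (by simp [h])
  unfold dg
  rw [Finset.card_le_one]
  intro p hp q hq
  rw [mem_nb] at hp hq
  obtain ⟨hp1, hp2⟩ := hp
  obtain ⟨hq1, hq2⟩ := hq
  simp only [Finset.mem_insert, Finset.mem_singleton] at hp1 hq1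
  rcases hp1 with rfl | rfl | rfl <;> rcases hq1 with rfl | rfl | rfl
  · rfl
  · exact absurd hq2 (hT _ _ _ hp2 eab)
  · exact h4 y b hyb _ _ hp2 eab.symm hq2 ebc
  · exact absurd hq2 (hT _ _ _ hp2 eab.symm)
  · rfl
  · exact absurd hq2 (hT _ _ _ hp2 ebc)
  · exact h4 y b hyb _ _ hp2 ebc hq2 eab.symm
  · exact absurd hq2 (hT _ _ _ hp2 ebc.symm)
  · rfl

/-- A 3-vertex path avoiding a given vertex. -/
theorem exists_tri3_erase (hT : NoTri G) (h4 : NoC4 G) {C : Finset V} (hC : OddC G C)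
    (h2 : ∀ v ∈ C, dg G v C = 2) {w : V} (hw : w ∈ C) : ∃ P ⊆ C.erase w, Tri3 G P := by
  obtain ⟨a, b, a', b', ha, hb, ha', hb', hva, hvb, haa, hbb, h5, h6, h7, h8, h9, h10, -⟩ :=
    ob_pent hT h4 h2 hw
  obtain ⟨a'', ha'', h11, h12, -⟩ := ob_other (h2 a' ha') ha haa.symm
  have h13 : a'' ≠ w := by
    rintro rfl
    exact hT _ _ _ hva haa h12.symm
  refine ⟨{a, a', a''}, ?_, a, a', a'', haa.ne, h12.ne, h11.symm, haa, h12, rfl⟩
  intro x hx
  simp only [Finset.mem_insert, Finset.mem_singleton] at hx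
  rw [Finset.mem_erase]
  rcases hx with rfl | rfl | rfl
  · exact ⟨hva.ne', ha⟩
  · exact ⟨h6, ha'⟩
  · exact ⟨h13, ha''⟩

/-- Two disjoint 3-vertex paths in a longer odd cycle. -/
theorem exists_two_tri3 (hT : NoTri G) (h4 : NoC4 G) {C : Finset V} (hC : OddC G C)
    (h2 : ∀ v ∈ C, dg G v C = 2) (h6 : 6 ≤ C.card) :
    ∃ P ⊆ C, ∃ P' ⊆ C, Tri3 G P ∧ Tri3 G P' ∧ Disjoint P P' := by
  obtain ⟨v, hv⟩ := hC.nonempty
  obtain ⟨a, b, a', b', ha, hb, ha', hb', hva, hvb, haa, hbb, h5, h6', h7, h8, h9, h10, hv2, ha2,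
    hb2⟩ := ob_pent hT h4 h2 hv
  obtain ⟨w, hw, hw2⟩ : ∃ w ∈ C, w ∉ ({v, a, b, a', b'} : Finset V) := by
    by_contra h
    push Not at h
    have h11 := Finset.card_le_card (fun x hx => h x hx)
    rw [ob_card5 hva.ne hvb.ne haa.ne hbb.ne h5 h6' h7 h8 h9 h10] at h11
    omega
  simp only [Finset.mem_insert, Finset.mem_singleton, not_or] at hw2
  obtain ⟨w1, w2, w3, w4, w5⟩ := hw2
  obtain ⟨x, y, hx, hy, hxy, hwx, hwy, -⟩ := ob_two (h2 w hw)
  have key : ∀ z ∈ C, G.Adj w z → z ≠ a ∧ z ≠ v ∧ z ≠ b := by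
    intro z hz hwz
    refine ⟨?_, ?_, ?_⟩
    · rintro rfl
      rcases ha2 w hw hwz.symm with h | h
      · exact w1 h
      · exact w4 h
    · rintro rfl
      rcases hv2 w hw hwz.symm with h | h
      · exact w2 h
      · exact w3 h
    · rintro rfl
      rcases hb2 w hw hwz.symm with h | h
      · exact w1 h
      · exact w5 h
  obtain ⟨x1, x2, x3⟩ := key x hx hwx
  obtain ⟨y1, y2, y3⟩ := key y hy hwy
  refine ⟨{a, v, b}, ?_, {x, w, y}, ?_, ⟨a, v, b, hva.ne', hvb.ne, h5, hva.symm, hvb, rfl⟩,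
    ⟨x, w, y, hwx.ne', hwy.ne, hxy, hwx.symm, hwy, rfl⟩, ?_⟩
  · intro z hz
    simp only [Finset.mem_insert, Finset.mem_singleton] at hz
    rcases hz with rfl | rfl | rfl <;> assumption
  · intro z hz
    simp only [Finset.mem_insert, Finset.mem_singleton] at hz
    rcases hz with rfl | rfl | rfl <;> assumption
  · rw [Finset.disjoint_left]
    intro z hz hz2
    simp only [Finset.mem_insert, Finset.mem_singleton] at hz hz2
    rcases hz2 with rfl | rfl | rfl
    · exact hz.elim x1 (fun h => h.elim x2 x3)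
    · exact hz.elim w2 (fun h => h.elim w1 w3)
    · exact hz.elim y1 (fun h => h.elim y2 y3)

end Pool.Agent.Lib.MP_7aba48_co_G5
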