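import Pool.Agent.Lib.MP_7aba48_co_G5.Main

/-!
# Graphs with maximum degree at most six and girth at least five are 5-colourable
-/

namespace Pool.Agent.Lib.MP_7aba48_co_G5.GirthFive

open Pool.Agent.Lib.MP_7aba48_co_G5

universe u

private lemma noTri_of_girth {V : Type u} {G : SimpleGraph V} (hg : 5 ≤ G.egirth) : NoTri G := by
  intro a b c hab hbc hac
  have hlen := SimpleGraph.le_egirth.mp hg a
    (SimpleGraph.Walk.cons hab (SimpleGraph.Walk.cons hbc
      (SimpleGraph.Walk.cons hac.symm SimpleGraph.Walk.nil)))
    (by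
      rw [SimpleGraph.Walk.cons_isCycle_iff]
      simp [SimpleGraph.Walk.isPath_def, hab.ne', hbc.ne, hac.ne', hab.ne, hac.ne])
  simp only [SimpleGraph.Walk.length_cons, SimpleGraph.Walk.length_nil] at hlen
  norm_num at hlen

private lemma noC4_of_girth {V : Type u} {G : SimpleGraph V} (hg : 5 ≤ G.egirth) : NoC4 G := by
  intro a b hab x y hax hbx hay hby
  by_contra hxy
  have hlen := SimpleGraph.le_egirth.mp hg a
    (SimpleGraph.Walk.cons hax (SimpleGraph.Walk.cons hbx.symm
      (SimpleGraph.Walk.cons hby (SimpleGraph.Walk.cons hay.symm SimpleGraph.Walk.nil))))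
    (by
      rw [SimpleGraph.Walk.cons_isCycle_iff]
      simp [SimpleGraph.Walk.isPath_def, hax.ne', hbx.ne', hay.ne', hay.ne, hby.ne, hab,
        hax.ne, hxy, Ne.symm hab])
  simp only [SimpleGraph.Walk.length_cons, SimpleGraph.Walk.length_nil] at hlen
  norm_num at hlen

/-- Every finite simple graph with maximum degree at most six and no cycle of length three or
four is 5-colourable. -/
theorem result {V : Type u} [Fintype V] (G : SimpleGraph V) [DecidableRel G.Adj]
    (hΔ : G.maxDegree ≤ 6) (hg : 5 ≤ G.egirth) : G.Colorable 5 := by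
  classical
  refine colorable_five (noTri_of_girth hg) (noC4_of_girth hg) ?_
  intro v
  have h1 : dg G v Finset.univ = G.degree v := by
    unfold dg
    rw [← SimpleGraph.card_neighborFinset_eq_degree]
    congr 1
    ext w
    simp
  rw [h1]
  exact (G.degree_le_maxDegree v).trans hΔ

end Pool.Agent.Lib.MP_7aba48_co_G5.GirthFive
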