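import Mathlib

/-!
# Two numerical estimates for products
-/

namespace Pool.Agent.Lib.MP_7aba48_co_G5

open Finset

/-- The numerical estimate: a family `S` of odd cycles, sizes `c` of the sets of allowed
representatives, `m` the number of vertices of the configuration they have to dominate. -/
theorem prod_bound_tri {ι : Type*} [DecidableEq ι] (S : Finset ι) (q : ι → ℝ) (m : ι → ℕ) (e : ℕ)
    (hm : ∀ l ∈ S, m l = 1 ∨ m l = 2) (hq0 : ∀ l ∈ S, 0 ≤ q l)
    (hq1 : ∀ l ∈ S, m l = 1 → q l ≤ 5 / 12) (hq2 : ∀ l ∈ S, m l = 2 → q l ≤ 5 / 16)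
    (he : e = 1 ∨ e = 2) (hsum : ∑ l ∈ S, m l + e = 6) :
    ∏ l ∈ S, q l ≤ (e : ℝ) / 20 := by
  classical
  set S1 := S.filter fun l => m l = 1 with hS1
  set S2 := S.filter fun l => ¬ m l = 1 with hS2
  have hp : ∏ l ∈ S, q l = (∏ l ∈ S1, q l) * ∏ l ∈ S2, q l :=
    (Finset.prod_filter_mul_prod_filter_not S (fun l => m l = 1) q).symm
  have hs : ∑ l ∈ S, m l = ∑ l ∈ S1, m l + ∑ l ∈ S2, m l :=
    (Finset.sum_filter_add_sum_filter_not S (fun l => m l = 1) m).symm
  have hs1 : ∑ l ∈ S1, m l = S1.card := by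
    rw [Finset.card_eq_sum_ones]
    exact Finset.sum_congr rfl fun l hl => (Finset.mem_filter.1 hl).2
  have hm2 : ∀ l ∈ S2, l ∈ S ∧ m l = 2 := by
    intro l hl
    obtain ⟨h1, h2⟩ := Finset.mem_filter.1 hl
    exact ⟨h1, (hm l h1).resolve_left h2⟩
  have hs2 : ∑ l ∈ S2, m l = 2 * S2.card := by
    rw [Finset.sum_congr rfl fun l hl => (hm2 l hl).2, Finset.sum_const, smul_eq_mul, mul_comm]
  have hb1 : ∏ l ∈ S1, q l ≤ (5 / 12 : ℝ) ^ S1.card := by
    rw [← Finset.prod_const]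
    exact Finset.prod_le_prod (fun l hl => hq0 l (Finset.mem_filter.1 hl).1)
      fun l hl => hq1 l (Finset.mem_filter.1 hl).1 (Finset.mem_filter.1 hl).2
  have hb2 : ∏ l ∈ S2, q l ≤ (5 / 16 : ℝ) ^ S2.card := by
    rw [← Finset.prod_const]
    exact Finset.prod_le_prod (fun l hl => hq0 l (hm2 l hl).1)
      fun l hl => hq2 l (hm2 l hl).1 (hm2 l hl).2
  have h0 : 0 ≤ ∏ l ∈ S2, q l := Finset.prod_nonneg fun l hl => hq0 l (hm2 l hl).1
  have hmain : ∏ l ∈ S, q l ≤ (5 / 12 : ℝ) ^ S1.card * (5 / 16 : ℝ) ^ S2.card := by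
    rw [hp]
    exact mul_le_mul hb1 hb2 h0 (by positivity)
  refine hmain.trans ?_
  have hcard : S1.card + 2 * S2.card + e = 6 := by
    rw [← hsum, hs, hs1, hs2]
  generalize S1.card = a at hcard ⊢
  generalize S2.card = b at hcard ⊢
  rcases he with rfl | rfl
  · have hb : b ≤ 2 := by omega
    interval_cases b
    · obtain rfl : a = 5 := by omega
      norm_num
    · obtain rfl : a = 3 := by omega
      norm_num
    · obtain rfl : a = 1 := by omega
      norm_num
  · have hb : b ≤ 2 := by omega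
    interval_cases b
    · obtain rfl : a = 4 := by omega
      norm_num
    · obtain rfl : a = 2 := by omega
      norm_num
    · obtain rfl : a = 0 := by omega
      norm_num

theorem prod_bound_five {ι : Type*} [DecidableEq ι] (S : Finset ι) (q : ι → ℝ)
    (hq0 : ∀ l ∈ S, 0 ≤ q l) (hq1 : ∀ l ∈ S, q l ≤ 5 / 12) (hS : S.card = 4) :
    ∏ l ∈ S, q l ≤ 1 / 20 := by
  have h : ∏ l ∈ S, q l ≤ (5 / 12 : ℝ) ^ S.card := by
    rw [← Finset.prod_const]
    exact Finset.prod_le_prod hq0 hq1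
  refine h.trans ?_
  rw [hS]
  norm_num

end Pool.Agent.Lib.MP_7aba48_co_G5
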