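import Pool.Agent.Lib.MP_7aba48_co_G5.Count
import Pool.Agent.Lib.MP_7aba48_co_G5.ExtB
import Pool.Agent.Lib.MP_7aba48_co_G5.BlockB
import Pool.Agent.Lib.MP_7aba48_co_G5.SelNum

/-!
# Choosing one vertex from each odd cycle
-/

namespace Pool.Agent.Lib.MP_7aba48_co_G5

open Finset

universe u

variable {V : Type u} [DecidableEq V] {G : SimpleGraph V}

/-- The members of `U` with a neighbour in `S`. -/
private noncomputable def hit (G : SimpleGraph V) (U S : Finset V) : Finset V :=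
  U.filter (fun u => (nb G u S).Nonempty)

private lemma mem_hit {U S : Finset V} {u : V} :
    u ∈ hit G U S ↔ u ∈ U ∧ ∃ t ∈ S, G.Adj u t := by
  unfold hit
  rw [Finset.mem_filter]
  constructor
  · rintro ⟨h1, t, ht⟩
    exact ⟨h1, t, (mem_nb.1 ht).1, (mem_nb.1 ht).2⟩
  · rintro ⟨h1, t, ht, h2⟩
    exact ⟨h1, t, mem_nb.2 ⟨ht, h2⟩⟩

/-- The members of `S` adjacent to all members of `U` with a neighbour in `S`. -/
private noncomputable def cov (G : SimpleGraph V) (U S : Finset V) : Finset V :=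
  S.filter (fun y => hit G U S ⊆ nb G y U)

private lemma mem_cov {U S : Finset V} {y : V} :
    y ∈ cov G U S ↔ y ∈ S ∧ ∀ u ∈ hit G U S, G.Adj u y := by
  unfold cov
  rw [Finset.mem_filter]
  constructor
  · rintro ⟨h1, h2⟩
    exact ⟨h1, fun u hu => (mem_nb.1 (h2 hu)).2.symm⟩
  · rintro ⟨h1, h2⟩
    exact ⟨h1, fun u hu => mem_nb.2 ⟨(mem_hit.1 hu).1, (h2 u hu).symm⟩⟩

private lemma card_hit_le {U S : Finset V} {y : V} (hy : y ∈ cov G U S) :
    (hit G U S).card ≤ dg G y U := by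
  apply Finset.card_le_card
  intro u hu
  exact mem_nb.2 ⟨(mem_hit.1 hu).1, ((mem_cov.1 hy).2 u hu).symm⟩

private lemma card_cov_le {U S C : Finset V} (hSC : S ⊆ C) {u : V} (hu : u ∈ hit G U S) :
    (cov G U S).card ≤ dg G u C := by
  apply Finset.card_le_card
  intro y hy
  exact mem_nb.2 ⟨hSC (mem_cov.1 hy).1, (mem_cov.1 hy).2 u hu⟩

private lemma card_cov_le_one (h4 : NoC4 G) {U S : Finset V} (h : 2 ≤ (hit G U S).card) :
    (cov G U S).card ≤ 1 := by
  obtain ⟨u, hu, v, hv, huv⟩ := Finset.one_lt_card.1 (by omega : 1 < (hit G U S).card)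
  rw [Finset.card_le_one]
  intro a ha b hb
  exact h4 u v huv a b ((mem_cov.1 ha).2 u hu) ((mem_cov.1 ha).2 v hv)
    ((mem_cov.1 hb).2 u hu) ((mem_cov.1 hb).2 v hv)

private lemma q_bound_one {a b : ℕ} (h : (a ≤ 1 ∧ 4 ≤ b) ∨ (a ≤ 2 ∧ 6 ≤ b)) :
    (a : ℝ) / (4 / 5 * (b : ℝ)) ≤ 5 / 12 := by
  rcases h with ⟨h1, h2⟩ | ⟨h1, h2⟩
  · have h3 : (a : ℝ) ≤ 1 := by exact_mod_cast h1
    have h4 : (4 : ℝ) ≤ b := by exact_mod_cast h2
    rw [div_le_iff₀ (by linarith)]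
    linarith
  · have h3 : (a : ℝ) ≤ 2 := by exact_mod_cast h1
    have h4 : (6 : ℝ) ≤ b := by exact_mod_cast h2
    rw [div_le_iff₀ (by linarith)]
    linarith

private lemma q_bound_two {a b : ℕ} (h1 : a ≤ 1) (h2 : 4 ≤ b) :
    (a : ℝ) / (4 / 5 * (b : ℝ)) ≤ 5 / 16 := by
  have h3 : (a : ℝ) ≤ 1 := by exact_mod_cast h1
  have h4 : (4 : ℝ) ≤ b := by exact_mod_cast h2
  rw [div_le_iff₀ (by linarith)]
  linarith

private lemma card_sdiff_K (hT : NoTri G) (h4 : NoC4 G) {A K : Finset V}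
    (hA : ∀ v ∈ A, dg G v A ≤ 2)
    (hK : ∀ C ∈ cyc G A, ∀ a ∈ C, ∀ b ∈ C, a ∈ K → b ∈ K → a = b) {C : Finset V}
    (hC : C ∈ cyc G A) : (C.card = 5 ∧ 4 ≤ (C \ K).card) ∨ 6 ≤ (C \ K).card := by
  have h2 : ∀ v ∈ C, dg G v C = 2 := fun v hv => (dg_eq_two hA hC hv).1
  have hodd := odd_card (mem_cyc.1 hC).2 h2
  have h5 := five_le_card hT h4 (mem_cyc.1 hC).2 h2
  have h6 : (C ∩ K).card ≤ 1 := by
    rw [Finset.card_le_one]
    intro a ha b hb
    rw [Finset.mem_inter] at ha hb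
    exact hK C hC a ha.1 b hb.1 ha.2 hb.2
  have h7 : (C \ K).card + (C ∩ K).card = C.card := Finset.card_sdiff_add_card_inter C K
  obtain ⟨k, hk⟩ := hodd
  omega

private lemma hit_unique {A K : Finset V} (hA : ∀ v ∈ A, dg G v A ≤ 2) {u : V}
    (hPT : ∀ T, PT G A K T → dg G u T ≤ 1)
    {C C' : Finset V} (hC : C ∈ cyc G A) (hC' : C' ∈ cyc G A) {t t' : V} (ht : t ∈ C \ K)
    (ht' : t' ∈ C' \ K) (h1 : G.Adj u t) (h2 : G.Adj u t') : C = C' := by
  by_contra hne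
  rw [Finset.mem_sdiff] at ht ht'
  have htt : t ≠ t' := by
    rintro rfl
    exact hne (cyc_disj hA hC hC' ht.1 ht'.1)
  have hPT' : PT G A K {t, t'} := by
    constructor
    · intro s hs
      simp only [Finset.mem_insert, Finset.mem_singleton] at hs
      rcases hs with rfl | rfl
      · exact ⟨ht.2, C, hC, ht.1⟩
      · exact ⟨ht'.2, C', hC', ht'.1⟩
    · intro D hD a ha b hb haT hbT
      simp only [Finset.mem_insert, Finset.mem_singleton] at haT hbT
      rcases haT with rfl | rfl <;> rcases hbT with rfl | rfl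
      · rfl
      · exact absurd ((cyc_disj hA hC hD ht.1 ha).trans (cyc_disj hA hD hC' hb ht'.1)) hne
      · exact absurd ((cyc_disj hA hC hD ht.1 hb).trans (cyc_disj hA hD hC' ha ht'.1)) hne
      · rfl
  have h3 := hPT _ hPT'
  have h5 : ({t, t'} : Finset V).card ≤ dg G u {t, t'} := by
    apply Finset.card_le_card
    intro s hs
    refine mem_nb.2 ⟨hs, ?_⟩
    simp only [Finset.mem_insert, Finset.mem_singleton] at hs
    rcases hs with rfl | rfl
    · exact h1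
    · exact h2
  rw [Finset.card_pair htt] at h5
  omega

private lemma dg_union_le (y : V) (P P' : Finset V) :
    dg G y (P ∪ P') ≤ dg G y P + dg G y P' := by
  refine le_trans (Finset.card_le_card ?_) (Finset.card_union_le (nb G y P) (nb G y P'))
  intro x hx
  rw [mem_nb, Finset.mem_union] at hx
  rw [Finset.mem_union, mem_nb, mem_nb]
  rcases hx with ⟨hx | hx, h⟩
  · exact Or.inl ⟨hx, h⟩
  · exact Or.inr ⟨hx, h⟩

private lemma tri3_card {P : Finset V} (hP : Tri3 G P) : P.card = 3 := by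
  obtain ⟨a, b, c, hab, hbc, hac, -, -, rfl⟩ := hP
  exact Finset.card_eq_three.2 ⟨a, b, c, hab, hac, hbc, rfl⟩

private lemma term_bound [Fintype V] (hT : NoTri G) (h4 : NoC4 G) {A K : Finset V}
    (hA : ∀ v ∈ A, dg G v A ≤ 2)
    (hK : ∀ C ∈ cyc G A, ∀ a ∈ C, ∀ b ∈ C, a ∈ K → b ∈ K → a = b) {U : Finset V}
    (hPT : ∀ u ∈ U, ∀ T, PT G A K T → dg G u T ≤ 1)
    (hC4 : ∀ u ∈ U, ∀ C ∈ cyc G A, dg G u C ≤ 2)
    (hU : Conf G Aᶜ U)
    (hev : ∀ u ∈ U, ∃ C : {C // C ∈ cyc G A}, u ∈ hit G U (C.1 \ K))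
    (i : {C // C ∈ cyc G A}) (hi : (hit G U (i.1 \ K)).Nonempty) {y : V}
    (hy : y ∈ cov G U (i.1 \ K)) :
    ∏ l ∈ (univ.filter
      (fun C : {C // C ∈ cyc G A} => (hit G U (C.1 \ K)).Nonempty)).erase i,
        (((cov G U (l.1 \ K)).card : ℝ) / (4 / 5 * ((l.1 \ K).card : ℝ))) ≤
      (dg G y U : ℝ) / 20 := by
  set S := univ.filter (fun C : {C // C ∈ cyc G A} => (hit G U (C.1 \ K)).Nonempty) with hS
  have hiS : i ∈ S := by
    rw [hS, Finset.mem_filter]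
    exact ⟨Finset.mem_univ _, hi⟩
  by_cases hz : ∃ l ∈ S.erase i, cov G U (l.1 \ K) = ∅
  · obtain ⟨l, hl, h0⟩ := hz
    rw [Finset.prod_eq_zero hl (by rw [h0]; simp)]
    positivity
  push Not at hz
  have hcov : ∀ l ∈ S, (cov G U (l.1 \ K)).Nonempty := by
    intro l hl
    by_cases hli : l = i
    · rw [hli]
      exact ⟨y, hy⟩
    · exact hz l (Finset.mem_erase.2 ⟨hli, hl⟩)
  have hUA : ∀ u ∈ U, u ∉ A := fun u hu => Finset.mem_compl.1 (hU.1 hu)
  have hYA : ∀ l : {C // C ∈ cyc G A}, ∀ z ∈ l.1 \ K, z ∈ A := fun l z hz =>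
    (mem_cyc.1 l.2).1 (Finset.mem_sdiff.1 hz).1
  have hsum : ∑ l ∈ S, (hit G U (l.1 \ K)).card = U.card := by
    rw [← Finset.card_biUnion]
    · congr 1
      ext u
      rw [Finset.mem_biUnion]
      constructor
      · rintro ⟨l, -, hu⟩
        exact (mem_hit.1 hu).1
      · intro hu
        obtain ⟨C, hC⟩ := hev u hu
        exact ⟨C, Finset.mem_filter.2 ⟨Finset.mem_univ _, u, hC⟩, hC⟩
    · intro l _ l' _ hll
      rw [Function.onFun, Finset.disjoint_left]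
      intro u hu hu'
      obtain ⟨hu1, t, ht, hut⟩ := mem_hit.1 hu
      obtain ⟨-, t', ht', hut'⟩ := mem_hit.1 hu'
      exact hll (Subtype.ext (hit_unique hA (hPT u hu1) l.2 l'.2 ht ht' hut hut'))
  have hq0 : ∀ l ∈ S.erase i,
      (0 : ℝ) ≤ ((cov G U (l.1 \ K)).card : ℝ) / (4 / 5 * ((l.1 \ K).card : ℝ)) := by
    intro l _
    positivity
  have hq1 : ∀ l ∈ S.erase i,
      ((cov G U (l.1 \ K)).card : ℝ) / (4 / 5 * ((l.1 \ K).card : ℝ)) ≤ 5 / 12 := by
    intro l hl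
    obtain ⟨u, hu⟩ := (Finset.mem_filter.1 (Finset.mem_of_mem_erase hl)).2
    have hu1 := (mem_hit.1 hu).1
    have h6 := card_cov_le (C := l.1) Finset.sdiff_subset hu
    apply q_bound_one
    rcases card_sdiff_K hT h4 hA hK l.2 with ⟨h7, h8⟩ | h7
    · left
      have h9 := dg_le_one_of_card_five hT h4 (mem_cyc.1 l.2).2
        (fun v hv => (dg_eq_two hA l.2 hv).1) h7 (y := u)
        (fun h => hUA u hu1 ((mem_cyc.1 l.2).1 h))
      exact ⟨le_trans h6 h9, h8⟩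
    · right
      exact ⟨le_trans h6 (hC4 u hu1 l.1 l.2), h7⟩
  have hq2 : ∀ l ∈ S.erase i, (hit G U (l.1 \ K)).card = 2 →
      ((cov G U (l.1 \ K)).card : ℝ) / (4 / 5 * ((l.1 \ K).card : ℝ)) ≤ 5 / 16 := by
    intro l _ hl2
    apply q_bound_two (card_cov_le_one h4 hl2.ge)
    rcases card_sdiff_K hT h4 hA hK l.2 with ⟨h7, h8⟩ | h7
    · exact h8
    · omega
  have hpos : ∀ l ∈ S, 1 ≤ (hit G U (l.1 \ K)).card := fun l hl =>
    Finset.card_pos.2 (Finset.mem_filter.1 hl).2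
  have hdy : (((hit G U (i.1 \ K)).card : ℕ) : ℝ) ≤ dg G y U := by
    exact_mod_cast card_hit_le hy
  rcases hU.2 with ⟨hU5, h1⟩ | ⟨P, P', hP, hP', hPP, hPU⟩
  · have hm1 : ∀ l ∈ S, (hit G U (l.1 \ K)).card = 1 := by
      intro l hl
      obtain ⟨z, hz'⟩ := hcov l hl
      have h2 := card_hit_le hz'
      have h3 := h1 z (fun h => Finset.mem_compl.1 h (hYA l z (mem_cov.1 hz').1))
      have h5 := hpos l hl
      omega
    rw [Finset.sum_congr rfl hm1] at hsum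
    simp only [Finset.sum_const, smul_eq_mul, mul_one] at hsum
    have hS4 : (S.erase i).card = 4 := by
      rw [Finset.card_erase_of_mem hiS]
      omega
    have h2 := prod_bound_five (S.erase i) _ hq0 hq1 hS4
    rw [hm1 i hiS] at hdy
    refine h2.trans ?_
    have h3 : (1 : ℝ) ≤ dg G y U := by exact_mod_cast hdy
    linarith
  · have hU6 : U.card = 6 := by
      rw [hPU, Finset.card_union_of_disjoint hPP, tri3_card hP, tri3_card hP']
    have hm2 : ∀ l ∈ S, (hit G U (l.1 \ K)).card = 1 ∨ (hit G U (l.1 \ K)).card = 2 := by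
      intro l hl
      obtain ⟨z, hz'⟩ := hcov l hl
      have h2 := card_hit_le hz'
      have hzA := hYA l z (mem_cov.1 hz').1
      have hzP : z ∉ P := fun h => hUA z (by rw [hPU]; exact Finset.mem_union_left _ h) hzA
      have hzP' : z ∉ P' := fun h => hUA z (by rw [hPU]; exact Finset.mem_union_right _ h) hzA
      have h3 := hP.dg_le_one hT h4 hzP
      have h3' := hP'.dg_le_one hT h4 hzP'
      have h6 := dg_union_le (G := G) z P P'
      rw [← hPU] at h6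
      have h5 := hpos l hl
      omega
    have hsum' : ∑ l ∈ S.erase i, (hit G U (l.1 \ K)).card + (hit G U (i.1 \ K)).card = 6 := by
      rw [Finset.sum_erase_add S _ hiS, hsum, hU6]
    have h2 := prod_bound_tri (S.erase i) _ (fun l => (hit G U (l.1 \ K)).card)
      (hit G U (i.1 \ K)).card (fun l hl => hm2 l (Finset.mem_of_mem_erase hl)) hq0
      (fun l hl _ => hq1 l hl) hq2 (hm2 i hiS) hsum'
    refine h2.trans ?_
    linarith

/-- Choose one unmarked vertex from each odd cycle of `A` such that in every configuration some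
vertex has no chosen neighbour. -/
theorem exists_select [Fintype V] (hT : NoTri G) (h4 : NoC4 G) {A K : Finset V}
    (hA : ∀ v ∈ A, dg G v A ≤ 2)
    (hK : ∀ C ∈ cyc G A, ∀ a ∈ C, ∀ b ∈ C, a ∈ K → b ∈ K → a = b)
    (hA4 : ∀ v ∈ A, dg G v A = 2 → dg G v Aᶜ ≤ 4)
    (hPT : ∀ u, u ∉ A → ∀ T, PT G A K T → dg G u Aᶜ + dg G u T ≤ 3)
    (hC4 : ∀ u, u ∉ A → ∀ C ∈ cyc G A, dg G u Aᶜ + dg G u C ≤ 4)
    (E : Finset (Finset V)) (hE : ∀ U ∈ E, Conf G Aᶜ U ∧ ∀ v ∈ U, dg G v Aᶜ = 2)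
    (hdisj : ∀ U ∈ E, ∀ U' ∈ E, ∀ v, v ∈ U → v ∈ U' → U = U') :
    ∃ T, PT G A K T ∧ (∀ C ∈ cyc G A, ∃ t ∈ C, t ∈ T) ∧
      ∀ U ∈ E, ∃ u ∈ U, ∀ t ∈ T, ¬ G.Adj u t := by
  classical
  have hUA : ∀ U ∈ E, ∀ u ∈ U, u ∉ A := fun U hU u hu => Finset.mem_compl.1 ((hE U hU).1.1 hu)
  have hPT1 : ∀ U ∈ E, ∀ u ∈ U, ∀ T, PT G A K T → dg G u T ≤ 1 := by
    intro U hU u hu T hTT
    have h1 := hPT u (hUA U hU u hu) T hTT
    have h2 := (hE U hU).2 u hu
    omega
  have hC42 : ∀ U ∈ E, ∀ u ∈ U, ∀ C ∈ cyc G A, dg G u C ≤ 2 := by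
    intro U hU u hu C hC
    have h1 := hC4 u (hUA U hU u hu) C hC
    have h2 := (hE U hU).2 u hu
    omega
  obtain ⟨f, hf, hf2⟩ := exists_transversal (ι := {C // C ∈ cyc G A})
    (fun C => C.1 \ K)
    (by
      intro C
      rw [← Finset.card_pos]
      rcases card_sdiff_K hT h4 hA hK C.2 with ⟨h7, h8⟩ | h7
      · omega
      · omega)
    (E.filter (fun U => ∀ u ∈ U, ∃ C : {C // C ∈ cyc G A}, u ∈ hit G U (C.1 \ K)))
    (fun U => univ.filter
      (fun C : {C // C ∈ cyc G A} => (hit G U (C.1 \ K)).Nonempty))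
    (fun U C => cov G U (C.1 \ K))
    (by
      intro U hU
      rw [Finset.mem_filter] at hU
      have hUne : U.Nonempty := by
        rw [← Finset.card_pos]
        rcases (hE U hU.1).1.2 with ⟨hU5, -⟩ | ⟨P, P', hP, hP', hPP, hPU⟩
        · omega
        · rw [hPU, Finset.card_union_of_disjoint hPP, tri3_card hP, tri3_card hP']
          omega
      obtain ⟨u, hu⟩ := hUne
      obtain ⟨C, hC⟩ := hU.2 u hu
      exact ⟨C, Finset.mem_filter.2 ⟨Finset.mem_univ _, u, hC⟩⟩)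
    (fun U _ C _ => Finset.filter_subset _ _)
    (4 / 5) (by norm_num) (by norm_num)
    (by
      intro i y hy
      have hyi : y ∈ i.1 := (Finset.mem_sdiff.1 hy).1
      have hyA : y ∈ A := (mem_cyc.1 i.2).1 hyi
      have hy4 := hA4 y hyA (dg_eq_two hA i.2 hyi).2.1
      set F := (E.filter (fun U => ∀ u ∈ U, ∃ C : {C // C ∈ cyc G A},
        u ∈ hit G U (C.1 \ K))).filter (fun U => i ∈ univ.filter
          (fun C : {C // C ∈ cyc G A} => (hit G U (C.1 \ K)).Nonempty) ∧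
            y ∈ cov G U (i.1 \ K)) with hF
      have hFE : ∀ U ∈ F, U ∈ E := fun U hU =>
        (Finset.mem_filter.1 (Finset.mem_filter.1 hU).1).1
      have h1 : ∀ U ∈ F, ∏ l ∈ (univ.filter
          (fun C : {C // C ∈ cyc G A} => (hit G U (C.1 \ K)).Nonempty)).erase i,
            (((cov G U (l.1 \ K)).card : ℝ) / (4 / 5 * ((l.1 \ K).card : ℝ))) ≤
          (dg G y U : ℝ) / 20 := by
        intro U hU
        have hU1 := Finset.mem_filter.1 hU
        have hU2 := Finset.mem_filter.1 hU1.1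
        exact term_bound hT h4 hA hK (hPT1 U hU2.1) (hC42 U hU2.1) (hE U hU2.1).1 hU2.2 i
          (Finset.mem_filter.1 hU1.2.1).2 hU1.2.2
      have h2 : ∑ U ∈ F, dg G y U ≤ dg G y Aᶜ := by
        show ∑ U ∈ F, (nb G y U).card ≤ (nb G y Aᶜ).card
        rw [← Finset.card_biUnion]
        · apply Finset.card_le_card
          intro v hv
          obtain ⟨U, hU, hvU⟩ := Finset.mem_biUnion.1 hv
          rw [mem_nb] at hvU ⊢
          exact ⟨(hE U (hFE U hU)).1.1 hvU.1, hvU.2⟩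
        · intro U hU U' hU' hne
          rw [Function.onFun, Finset.disjoint_left]
          intro v hv hv'
          exact hne (hdisj U (hFE U hU) U' (hFE U' hU') v (mem_nb.1 hv).1 (mem_nb.1 hv').1)
      have h3 : ((∑ U ∈ F, dg G y U : ℕ) : ℝ) ≤ 4 := by
        exact_mod_cast h2.trans hy4
      refine (Finset.sum_le_sum h1).trans ?_
      rw [← Finset.sum_div]
      push_cast at h3
      linarith)
  refine ⟨univ.image f, ⟨?_, ?_⟩, ?_, ?_⟩
  · intro t ht
    obtain ⟨C, -, rfl⟩ := Finset.mem_image.1 ht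
    have h1 := Finset.mem_sdiff.1 (hf C)
    exact ⟨h1.2, C.1, C.2, h1.1⟩
  · intro C hC a ha b hb haT hbT
    obtain ⟨C1, -, rfl⟩ := Finset.mem_image.1 haT
    obtain ⟨C2, -, rfl⟩ := Finset.mem_image.1 hbT
    have h1 : C1.1 = C := cyc_disj hA C1.2 hC (Finset.mem_sdiff.1 (hf C1)).1 ha
    have h2 : C2.1 = C := cyc_disj hA C2.2 hC (Finset.mem_sdiff.1 (hf C2)).1 hb
    rw [Subtype.ext (h1.trans h2.symm)]
  · intro C hC
    exact ⟨f ⟨C, hC⟩, (Finset.mem_sdiff.1 (hf ⟨C, hC⟩)).1,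
      Finset.mem_image.2 ⟨_, Finset.mem_univ _, rfl⟩⟩
  · intro U hU
    by_cases hev : ∀ u ∈ U, ∃ C : {C // C ∈ cyc G A}, u ∈ hit G U (C.1 \ K)
    · obtain ⟨C, -, hfC⟩ := hf2 U (Finset.mem_filter.2 ⟨hU, hev⟩)
      obtain ⟨u, hu, huC⟩ : ∃ u ∈ hit G U (C.1 \ K), ¬ G.Adj u (f C) := by
        by_contra h
        push Not at h
        exact hfC (mem_cov.2 ⟨hf C, h⟩)
      obtain ⟨hu1, t, ht, hut⟩ := mem_hit.1 hu
      refine ⟨u, hu1, ?_⟩
      intro t' ht' hut'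
      obtain ⟨C', -, rfl⟩ := Finset.mem_image.1 ht'
      have h1 : C = C' :=
        Subtype.ext (hit_unique hA (hPT1 U hU u hu1) C.2 C'.2 ht (hf C') hut hut')
      rw [← h1] at hut'
      exact huC hut'
    · push Not at hev
      obtain ⟨u, hu, hu2⟩ := hev
      refine ⟨u, hu, ?_⟩
      intro t ht hut
      obtain ⟨C, -, rfl⟩ := Finset.mem_image.1 ht
      exact hu2 C (mem_hit.2 ⟨hu, f C, hf C, hut⟩)

end Pool.Agent.Lib.MP_7aba48_co_G5
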